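import Pool.Agent.Lib.MP_cfacaa_ag.Res

/-! Row cf-Conv: a globally generated class is nonnegative on rational curves. -/

namespace Pool.Agent.MP_cfacaa_ag

open MvPolynomial

section

variable {V E : Type} [Fintype V] [Fintype E] [DecidableEq E]

/-- Its degree is at most `∑ d i * deg i`: use the local form at the point at infinity, `Q(C(T))` has degree exactly `∑ q i * deg i`
(`coeff_val`). -/
theorem natDegree_le_of_isSection {S : Sys V E} {d : E → ℤ} {s : (E → Fin 2 → ℂ) → ℂ} (hs : IsSection S d s) (C : RatCurve S)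
    {f : Polynomial ℂ} (hf : ∀ t : ℂ, s (fun i ε => (C.c i ε).eval t) = f.eval t) (hf0 : f ≠ 0) :
    (f.natDegree : ℤ) ≤ ∑ i, d i * (C.deg i : ℤ) := by
  obtain ⟨p, q, P, Q, hP, hQ, hpq, hQ0, h⟩ := hs _ (infinity_mem_cone C)
  have hc : ∀ i ε, (C.c i ε).natDegree ≤ C.deg i := by
    intro i ε
    fin_cases ε
    · exact le_max_left _ _
    · exact le_max_right _ _
  have hQc : (val C.c Q).coeff (∑ i, q i * C.deg i) ≠ 0 := by
    rw [coeff_val hQ C.c C.deg hc]
    exact hQ0
  have hQne : val C.c Q ≠ 0 := by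
    intro h0
    rw [h0, Polynomial.coeff_zero] at hQc
    exact hQc rfl
  have hQd : ∑ i, q i * C.deg i ≤ (val C.c Q).natDegree := Polynomial.le_natDegree_of_ne_zero hQc
  have hPd : (val C.c P).natDegree ≤ ∑ i, p i * C.deg i := natDegree_val_le hP C.c C.deg hc
  have hmul : f * val C.c Q = val C.c P := by
    have h1 : (f * val C.c Q - val C.c P) * val C.c Q = 0 := by
      apply Polynomial.funext
      intro t
      rw [Polynomial.eval_mul, Polynomial.eval_zero]
      by_cases h0 : (val C.c Q).eval t = 0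
      · rw [h0, mul_zero]
      · have h2 := h _ (eval_mem_cone C t) (by rw [← eval_val]; exact h0)
        rw [← eval_val, ← eval_val, hf t] at h2
        rw [Polynomial.eval_sub, Polynomial.eval_mul, h2, sub_self, zero_mul]
    rcases mul_eq_zero.1 h1 with h2 | h2
    · exact sub_eq_zero.1 h2
    · exact absurd h2 hQne
  have hdeg : f.natDegree + (val C.c Q).natDegree = (val C.c P).natDegree := by
    rw [← hmul, Polynomial.natDegree_mul hf0 hQne]
  have h3 : f.natDegree + ∑ i, q i * C.deg i ≤ ∑ i, p i * C.deg i := by omega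
  have h4 : ∑ i, d i * (C.deg i : ℤ) = ((∑ i, p i * C.deg i : ℕ) : ℤ) - ((∑ i, q i * C.deg i : ℕ) : ℤ) := by
    push_cast
    rw [← Finset.sum_sub_distrib]
    refine Finset.sum_congr rfl fun i _ => ?_
    rw [← hpq i]
    ring
  rw [h4]
  have h5 : ((f.natDegree + ∑ i, q i * C.deg i : ℕ) : ℤ) ≤ ((∑ i, p i * C.deg i : ℕ) : ℤ) := by
    exact_mod_cast h3
  rw [Nat.cast_add] at h5
  linarith

theorem nonnegOnCurves_of_globallyGenerated {S : Sys V E} {d : E → ℤ} (h : GloballyGenerated S d) : NonnegOnCurves S d := by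
  intro C
  obtain ⟨n, s, hs, h0⟩ := h
  obtain ⟨k, hk⟩ := h0 _ (eval_mem_cone C 0)
  obtain ⟨f, hf⟩ := exists_poly_of_isSection (hs k) C
  have hf0 : f ≠ 0 := by
    rintro rfl
    rw [hf 0, Polynomial.eval_zero] at hk
    exact hk rfl
  exact (Int.natCast_nonneg _).trans (natDegree_le_of_isSection (hs k) C hf hf0)

end

end Pool.Agent.MP_cfacaa_ag
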