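import Pool.Agent.Lib.MP_cfacaa_ag.Val

/-! Row cf-Curve: points of rational curves. -/

namespace Pool.Agent.MP_cfacaa_ag

open MvPolynomial

section

variable {V E : Type} [Fintype V] [Fintype E] [DecidableEq E]

/-- The coefficients of `F u` as a quadratic form in the pair `a` do not vanish simultaneously on `X`. -/
def NoZero (S : Sys V E) (u : V) (a : E) : Prop :=
  ∀ x ∈ S.cone, ¬ (val (Function.update x a ![1, 0]) (S.F u) = 0 ∧ val (Function.update x a ![0, 1]) (S.F u) = 0 ∧
    val (Function.update x a ![1, 1]) (S.F u) = 0)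

/-- the action of the involution on the classes -/
def refl (S : Sys V E) (u : V) (a : E) (d : E → ℤ) : E → ℤ := fun j => if j = a then - d a else d j + d a * S.e u j

theorem e_eq_zero_of_ne {S : Sys V E} {u : V} {a : E} (ha : S.e u a = 2) {w : V} (hw : w ≠ u) : S.e w a = 0 := by
  classical
  have h1 := S.cy a
  have h2 : S.e u a + ∑ v ∈ Finset.univ.erase u, S.e v a = 2 := by
    rw [Finset.add_sum_erase _ (fun v => S.e v a) (Finset.mem_univ u)]
    exact h1
  have h3 : ∑ v ∈ Finset.univ.erase u, S.e v a = 0 := by omega
  rw [Finset.sum_eq_zero_iff] at h3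
  exact h3 w (Finset.mem_erase.2 ⟨hw, Finset.mem_univ w⟩)

/-- The point at infinity of a rational curve is on `X`. -/
theorem infinity_mem_cone {S : Sys V E} (C : RatCurve S) : (fun i ε => (C.c i ε).coeff (C.deg i)) ∈ S.cone := by
  constructor
  · intro i h0
    have h1 : ∀ ε, (C.c i ε).coeff (C.deg i) = 0 := fun ε => congrFun h0 ε
    have hne : C.c i 0 ≠ 0 ∨ C.c i 1 ≠ 0 := by
      by_contra hcon
      push_neg at hcon
      have h2 := C.cop i
      rw [hcon.1, hcon.2] at h2
      exact not_isCoprime_zero_zero h2
    rcases le_total (C.c i 0).natDegree (C.c i 1).natDegree with hle | hle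
    · have hd : C.deg i = (C.c i 1).natDegree := max_eq_right hle
      have h2 := h1 1
      rw [hd, Polynomial.coeff_natDegree, Polynomial.leadingCoeff_eq_zero] at h2
      rw [h2, Polynomial.natDegree_zero] at hd hle
      have h3 := h1 0
      have h4 : (C.c i 0).natDegree = 0 := Nat.le_zero.1 hle
      rw [hd, ← h4, Polynomial.coeff_natDegree, Polynomial.leadingCoeff_eq_zero] at h3
      rcases hne with h | h
      · exact h h3
      · exact h h2
    · have hd : C.deg i = (C.c i 0).natDegree := max_eq_left hle
      have h2 := h1 0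
      rw [hd, Polynomial.coeff_natDegree, Polynomial.leadingCoeff_eq_zero] at h2
      rw [h2, Polynomial.natDegree_zero] at hd hle
      have h3 := h1 1
      have h4 : (C.c i 1).natDegree = 0 := Nat.le_zero.1 hle
      rw [hd, ← h4, Polynomial.coeff_natDegree, Polynomial.leadingCoeff_eq_zero] at h3
      rcases hne with h | h
      · exact h h2
      · exact h h3
  · intro v
    have h1 := coeff_val (S.hF v) C.c C.deg (by
      intro i ε
      fin_cases ε
      · exact le_max_left _ _
      · exact le_max_right _ _)
    rw [← h1, C.on v, Polynomial.coeff_zero]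

theorem eval_mem_cone {S : Sys V E} (C : RatCurve S) (t : ℂ) : (fun i ε => (C.c i ε).eval t) ∈ S.cone := by
  constructor
  · intro i h0
    have h1 : ∀ ε, (C.c i ε).eval t = 0 := fun ε => congrFun h0 ε
    obtain ⟨a, b, hab⟩ := C.cop i
    have h2 := congrArg (Polynomial.eval t) hab
    rw [Polynomial.eval_add, Polynomial.eval_mul, Polynomial.eval_mul, h1 0, h1 1,
      Polynomial.eval_one, mul_zero, mul_zero, add_zero] at h2
    exact zero_ne_one h2
  · intro v
    rw [← eval_val, C.on v, Polynomial.eval_zero]

end

end Pool.Agent.MP_cfacaa_ag
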