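import Mathlib

/-!
Complete intersections in products of projective lines: points, line bundles, sections, rational
curves.
-/

namespace Pool.Agent.MP_cfacaa_ag

open MvPolynomial

/-- The value of the polynomial `P`, in the variables `x i 0, x i 1` with `i : E`, at the family of pairs
`x`. -/
noncomputable def val {E K R : Type} [CommSemiring K] [CommSemiring R] [Algebra K R] (x : E → Fin 2 → R)
    (P : MvPolynomial (E × Fin 2) K) : R :=
  aeval (fun p : E × Fin 2 => x p.1 p.2) P

/-- `P` is multihomogeneous of multidegree `e`: every monomial of `P` has degree `e i` in the pair of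
variables `x i 0, x i 1`, for every `i`. -/
def IsMH {E K : Type} [CommSemiring K] (e : E → ℕ) (P : MvPolynomial (E × Fin 2) K) : Prop :=
  ∀ m ∈ P.support, ∀ i, m (i, 0) + m (i, 1) = e i

/-- A system of equations `F v = 0`, `v : V`, in the product of projective lines `(ℙ¹)^E`; `F v` is
multihomogeneous of multidegree `e v`, and the multidegrees have the sum `(2, …, 2)`. (When the
common zero set `X` is smooth of dimension `|E| - |V|` the canonical class of `X` is trivial by the
adjunction formula.) -/
structure Sys (V E : Type) [Fintype V] where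
  /-- the multidegrees -/
  e : V → E → ℕ
  /-- the equations -/
  F : V → MvPolynomial (E × Fin 2) ℂ
  hF : ∀ v, IsMH (e v) (F v)
  cy : ∀ i, ∑ v, e v i = 2

section

variable {V E : Type} [Fintype V] [Fintype E] (S : Sys V E)

/-- The cone over `X`: the families of homogeneous coordinates `x i ≠ 0` of the points of `X`. -/
def Sys.cone : Set (E → Fin 2 → ℂ) := {x | (∀ i, x i ≠ 0) ∧ ∀ v, val x (S.F v) = 0}

/-- A morphism from the projective line to `X`, written in an affine coordinate as a family of pairs of
coprime polynomials which satisfy the equations. -/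
structure RatCurve where
  /-- the pairs of polynomials -/
  c : E → Fin 2 → Polynomial ℂ
  cop : ∀ i, IsCoprime (c i 0) (c i 1)
  on : ∀ v, val c (S.F v) = 0

/-- The degree of the pullback of the hyperplane class `H i` of the `i`-th factor to the curve. -/
noncomputable def RatCurve.deg {S : Sys V E} (C : RatCurve S) (i : E) : ℕ :=
  max (C.c i 0).natDegree (C.c i 1).natDegree

/-- The class `∑ d i • H i` is nonnegative on all rational curves of `X`. -/
def NonnegOnCurves (d : E → ℤ) : Prop := ∀ C : RatCurve S, 0 ≤ ∑ i, d i * (C.deg i : ℤ)

/-- `s` is a section of the line bundle `𝒪_X(d)`: locally on the cone `s` is `P / Q` with multihomogeneous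
polynomials `P`, `Q` of multidegrees `p`, `q`, `p - q = d`. -/
def IsSection (d : E → ℤ) (s : (E → Fin 2 → ℂ) → ℂ) : Prop :=
  ∀ x ∈ S.cone, ∃ (p q : E → ℕ) (P Q : MvPolynomial (E × Fin 2) ℂ), IsMH p P ∧ IsMH q Q ∧
    (∀ i, (p i : ℤ) - q i = d i) ∧ val x Q ≠ 0 ∧ ∀ y ∈ S.cone, val y Q ≠ 0 → s y * val y Q = val y P

/-- The line bundle `𝒪_X(d)` is globally generated: finitely many sections have no common zero on
`X`. -/
def GloballyGenerated (d : E → ℤ) : Prop :=
  ∃ (n : ℕ) (s : Fin n → (E → Fin 2 → ℂ) → ℂ), (∀ k, IsSection S d (s k)) ∧
    ∀ x ∈ S.cone, ∃ k, s k x ≠ 0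

open Classical in
/-- The factors which are involved in the equations `F w`, `w ∈ W`. -/
noncomputable def Sys.factors (W : Finset V) : Finset E := Finset.univ.filter fun i => ∃ v ∈ W, S.e v i ≠ 0

/-- The numerical condition on the multidegrees: every equation involves at least three factors; any
`m ≥ 2` equations involve together at least `m + 3` factors; no equation has the multidegree
`(2, 2, 2)` in three factors and `0` in the others. -/
structure Sys.Wide : Prop where
  three : ∀ v, 3 ≤ (S.factors {v}).card
  more : ∀ W : Finset V, 2 ≤ W.card → W.card + 3 ≤ (S.factors W).card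
  one : ∀ v, (S.factors {v}).card = 3 → ∃ i, S.e v i = 1

end

end Pool.Agent.MP_cfacaa_ag
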