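import Pool.Agent.Lib.MP_cfacaa_ag.Val

/-! Row cf-ExA: descent of common zeros to an algebraically closed field. -/

namespace Pool.Agent.MP_cfacaa_ag

open MvPolynomial

/-- If multihomogeneous polynomials over the algebraically closed field `K` have a common zero with nonzero pairs over
an extension field `F`, then they have one over `K`. (Scale so that one coordinate of every pair, `x i (s i)`, is `1`; add
the equations `X (i, s i) - 1`; the ideal is not the unit ideal, so it is in a maximal ideal, which is the ideal of a point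
(`MvPolynomial.isMaximal_iff_eq_vanishingIdeal_singleton`).) -/
theorem exists_zero_of_extension {κ ι K F : Type} [Fintype κ] [Field K] [IsAlgClosed K] [Field F] [Algebra K F]
    (e : ι → κ → ℕ) (G : ι → MvPolynomial (κ × Fin 2) K) (hG : ∀ k, IsMH (e k) (G k))
    (x : κ → Fin 2 → F) (hx : ∀ i, x i ≠ 0) (h : ∀ k, val x (G k) = 0) :
    ∃ y : κ → Fin 2 → K, (∀ i, y i ≠ 0) ∧ ∀ k, val y (G k) = 0 := by
  classical
  have hs : ∀ i, ∃ s : Fin 2, x i s ≠ 0 := fun i => Function.ne_iff.1 (hx i)
  choose s hs using hs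
  set x' : κ → Fin 2 → F := fun i ε => (x i (s i))⁻¹ * x i ε with hx'
  have hz : ∀ k, val x' (G k) = 0 := by
    intro k
    rw [hx', val_smul_all (hG k) x fun i => (x i (s i))⁻¹, h k, mul_zero]
  have h1 : ∀ i, x' i (s i) = 1 := fun i => inv_mul_cancel₀ (hs i)
  set A : Set (MvPolynomial (κ × Fin 2) K) :=
    Set.range G ∪ Set.range fun i : κ => (X (i, s i) - 1 : MvPolynomial (κ × Fin 2) K) with hA
  have hne : Ideal.span A ≠ ⊤ := by
    intro htop
    have hle : Ideal.span A ≤ RingHom.ker
        (aeval (fun p : κ × Fin 2 => x' p.1 p.2) : MvPolynomial (κ × Fin 2) K →ₐ[K] F) := by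
      rw [Ideal.span_le]
      rintro p (⟨k, rfl⟩ | ⟨i, rfl⟩)
      · exact hz k
      · simp [RingHom.mem_ker, h1]
    rw [htop, top_le_iff] at hle
    exact (RingHom.ker_ne_top _) hle
  obtain ⟨M, hM, hAM⟩ := Ideal.exists_le_maximal _ hne
  obtain ⟨p, rfl⟩ := MvPolynomial.isMaximal_iff_eq_vanishingIdeal_singleton.1 hM
  have hmem : ∀ q ∈ A, aeval p q = 0 := by
    intro q hq
    have := hAM (Ideal.subset_span hq)
    simpa using this
  refine ⟨fun i ε => p (i, ε), ?_, ?_⟩
  · intro i hi
    have e1 := hmem _ (Or.inr ⟨i, rfl⟩)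
    have e2 := congrFun hi (s i)
    simp only [Pi.zero_apply] at e2
    simp [e2] at e1
  · intro k
    exact hmem _ (Or.inl ⟨k, rfl⟩)

end Pool.Agent.MP_cfacaa_ag
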