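import Pool.Agent.Lib.MP_cfacaa_ag.ExA

/-! Row cf-ExB: reduction of common zeros modulo a valuation ring. -/

namespace Pool.Agent.MP_cfacaa_ag

open MvPolynomial

/-- the reduction, for a point with coordinates in `A` -/
private theorem ExB_reduce {κ ι K L : Type} [Fintype κ] [Field K] [IsAlgClosed K] [Field L] [Algebra K L]
    (e : ι → κ → ℕ) (G : ι → MvPolynomial (κ × Fin 2) K) (hG : ∀ k, IsMH (e k) (G k))
    (A : ValuationSubring L) (hA : ∀ k : K, algebraMap K L k ∈ A)
    (x : κ → Fin 2 → L) (hxA : ∀ i ε, x i ε ∈ A) (hx1 : ∀ i, ∃ ε, x i ε = 1)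
    (h : ∀ k, A.valuation (val x (G k)) < 1) :
    ∃ y : κ → Fin 2 → K, (∀ i, y i ≠ 0) ∧ ∀ k, val y (G k) = 0 := by
  let f : K →+* A := (algebraMap K L).codRestrict A.toSubring hA
  let _ : Algebra K A := f.toAlgebra
  let _ : Algebra K (IsLocalRing.ResidueField A) := ((IsLocalRing.residue A).comp f).toAlgebra
  let j : A →ₐ[K] L := { A.subtype with commutes' := fun k => rfl }
  let r : A →ₐ[K] IsLocalRing.ResidueField A :=
    { IsLocalRing.residue A with commutes' := fun k => rfl }
  let y : κ → Fin 2 → A := fun i ε => ⟨x i ε, hxA i ε⟩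
  have h1 : ∀ k, (j (val y (G k)) : L) = val x (G k) := fun k => map_val j y (G k)
  refine exists_zero_of_extension e G hG (fun i ε => r (y i ε)) ?_ ?_
  · intro i hi
    obtain ⟨ε, hε⟩ := hx1 i
    have h2 : r (y i ε) = 0 := congrFun hi ε
    have h3 : y i ε = 1 := Subtype.ext hε
    rw [h3, map_one] at h2
    exact one_ne_zero h2
  · intro k
    rw [← map_val r y (G k)]
    have h2 : val y (G k) ∈ IsLocalRing.maximalIdeal A := by
      rw [ValuationSubring.valuation_lt_one_iff]
      have h3 := h k
      rw [← h1 k] at h3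
      exact h3
    exact (IsLocalRing.residue_eq_zero_iff _).mpr h2

/-- Let `A` be a valuation subring of `L` which contains `K`, and put `v i = max (v (x i 0)) (v (x i 1))` (multiplicative valuation of
`A`). If `v (val x P)` is strictly
smaller than `∏ i, v i ^ e i` for all `P = G k`, then the `G k` have a common zero over `K`. (Divide `x i` by the coordinate of
larger valuation; then all coordinates are in `A`, one of them is `1`; the values of `G k` at the new point are in the
maximal ideal, by `val_smul_all`; reduce to the residue field of `A`, an extension field of `K`, and use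
`exists_zero_of_extension`.) -/
theorem exists_zero_of_valuationSubring {κ ι K L : Type} [Fintype κ] [Field K] [IsAlgClosed K] [Field L] [Algebra K L]
    (e : ι → κ → ℕ) (G : ι → MvPolynomial (κ × Fin 2) K) (hG : ∀ k, IsMH (e k) (G k))
    (A : ValuationSubring L) (hA : ∀ k : K, algebraMap K L k ∈ A)
    (x : κ → Fin 2 → L) (hx : ∀ i, x i ≠ 0)
    (h : ∀ k, A.valuation (val x (G k)) < ∏ i, (max (A.valuation (x i 0)) (A.valuation (x i 1))) ^ e k i) :
    ∃ y : κ → Fin 2 → K, (∀ i, y i ≠ 0) ∧ ∀ k, val y (G k) = 0 := by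
  have hs : ∀ i, ∃ s : Fin 2, x i s ≠ 0 ∧ (∀ ε, A.valuation (x i ε) ≤ A.valuation (x i s)) ∧
      max (A.valuation (x i 0)) (A.valuation (x i 1)) = A.valuation (x i s) := by
    intro i
    have hne : x i 0 ≠ 0 ∨ x i 1 ≠ 0 := by
      by_contra hcon
      push Not at hcon
      refine hx i (funext fun ε => ?_)
      fin_cases ε
      · exact hcon.1
      · exact hcon.2
    rcases le_total (A.valuation (x i 0)) (A.valuation (x i 1)) with h1 | h1
    · refine ⟨1, ?_, ?_, max_eq_right h1⟩
      · intro h2
        rw [h2, map_zero, le_zero_iff, Valuation.zero_iff] at h1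
        rcases hne with h3 | h3
        · exact h3 h1
        · exact h3 h2
      · intro ε
        fin_cases ε
        · exact h1
        · exact le_rfl
    · refine ⟨0, ?_, ?_, max_eq_left h1⟩
      · intro h2
        rw [h2, map_zero, le_zero_iff, Valuation.zero_iff] at h1
        rcases hne with h3 | h3
        · exact h3 h2
        · exact h3 h1
      · intro ε
        fin_cases ε
        · exact le_rfl
        · exact h1
  choose s hs0 hs1 hs2 using hs
  refine ExB_reduce e G hG A hA (fun i ε => (x i (s i))⁻¹ * x i ε) ?_ ?_ ?_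
  · intro i ε
    rw [← A.valuation_le_one_iff, map_mul, map_inv₀]
    have h0 : 0 < A.valuation (x i (s i)) := (Valuation.pos_iff _).mpr (hs0 i)
    rw [inv_mul_le_one₀ h0]
    exact hs1 i ε
  · intro i
    exact ⟨s i, inv_mul_cancel₀ (hs0 i)⟩
  · intro k
    rw [val_smul_all (hG k), map_mul, map_prod]
    have h0 : 0 < ∏ i, A.valuation (x i (s i)) ^ e k i := by
      rw [zero_lt_iff, Finset.prod_ne_zero_iff]
      intro i _
      exact pow_ne_zero _ ((Valuation.ne_zero_iff _).mpr (hs0 i))
    have h1 : ∏ i, A.valuation ((x i (s i))⁻¹ ^ e k i) = (∏ i, A.valuation (x i (s i)) ^ e k i)⁻¹ := by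
      rw [← Finset.prod_inv_distrib]
      exact Finset.prod_congr rfl fun i _ => by rw [map_pow, map_inv₀, inv_pow]
    have h2 := h k
    simp only [hs2] at h2
    rw [h1, inv_mul_lt_one₀ h0]
    exact h2

end Pool.Agent.MP_cfacaa_ag
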