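import Mathlib

/-! Row cf-ExV: intersection of valuation rings. -/

namespace Pool.Agent.MP_cfacaa_ag

private theorem ExV_mem_range {K L : Type} [Field K] [IsAlgClosed K] [Field L] [Algebra K L] (y : L)
    (hy : IsIntegral (algebraMap K L).range y) : y ∈ (algebraMap K L).range := by
  obtain ⟨p, hp, hpx⟩ := hy
  let e : K ≃+* (algebraMap K L).range := RingEquiv.ofBijective (algebraMap K L).rangeRestrict
    ⟨fun a b hab => (algebraMap K L).injective (congrArg Subtype.val hab),
      (algebraMap K L).rangeRestrict_surjective⟩
  have he : (algebraMap K L).comp (e.symm : (algebraMap K L).range →+* K) =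
      algebraMap (algebraMap K L).range L := by
    ext z
    have h1 : e (e.symm z) = z := e.apply_symm_apply z
    exact congrArg Subtype.val h1
  have hint : IsIntegral K y := by
    refine ⟨p.map (e.symm : (algebraMap K L).range →+* K), hp.map _, ?_⟩
    rw [Polynomial.eval₂_map, he]
    exact hpx
  exact minpoly.mem_range_of_degree_eq_one K y
    (IsAlgClosed.degree_eq_one_of_irreducible K (minpoly.irreducible hint))

/-- An element of `L` which is in all valuation subrings that contain `K` is in `K`, if `K` is algebraically closed (it is
integral over `K`, since the integral closure is the intersection of the valuation rings, see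
`Mathlib/RingTheory/Valuation/LocalSubring.lean` or `LocalSubring.lean`). -/
theorem mem_range_of_forall_valuationSubring {K L : Type} [Field K] [IsAlgClosed K] [Field L] [Algebra K L] (x : L)
    (h : ∀ A : ValuationSubring L, (∀ k : K, algebraMap K L k ∈ A) → x ∈ A) : x ∈ Set.range (algebraMap K L) := by
  by_contra hx
  have hx' : x ∉ (algebraMap K L).range := fun h => hx h
  have hic : IsIntegrallyClosedIn (algebraMap K L).range L := by
    rw [Subring.isIntegrallyClosedIn_iff]
    intro y hy
    exact ExV_mem_range y hy
  obtain ⟨V, hV, hxV⟩ := Subring.exists_le_valuationSubring_of_isIntegrallyClosedIn hx'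
  exact hxV (h V fun k => hV ⟨k, rfl⟩)

end Pool.Agent.MP_cfacaa_ag
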