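import Pool.Agent.Lib.MP_cfacaa_ag.ExB
import Pool.Agent.Lib.MP_cfacaa_ag.ExV

/-! Row cf-ExC: the induction step for the existence of common zeros. -/

namespace Pool.Agent.MP_cfacaa_ag

open MvPolynomial

/-- The step. `L = AlgebraicClosure (RatFunc K)`, `t` = the image of `RatFunc.X`. `z` is a common zero over `L` of the
polynomials `G (some k)`, with the pair `none` equal to `(t, 1)`. Suppose there is no common zero over `K`. We may
assume that every pair `z i` has a coordinate equal to `1`. Let `g = val z (G none)`. For every valuation subring `A` that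
contains `K`, `exists_zero_of_valuationSubring` gives `∏ max(..) ^ e none i ≤ v g` (the other values are zero), hence
`1 ≤ v g`. So `g⁻¹` is in every `A`, so it is in `K` (`mem_range_of_forall_valuationSubring`), `v g = 1`, so all `max(..)` which
occur with `e none i ≥ 1` are `1`, in particular `v t ≤ 1` for all `A`, `t` is in `K`. Contradiction. -/
theorem exists_zero_step {κ K L : Type} [Fintype κ] [Field K] [IsAlgClosed K] [Field L] [Algebra K L]
    (t : L) (ht : t ∉ Set.range (algebraMap K L))
    (e : Option κ → Option κ → ℕ) (G : Option κ → MvPolynomial (Option κ × Fin 2) K) (hG : ∀ k, IsMH (e k) (G k))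
    (he : 1 ≤ e none none)
    (z : Option κ → Fin 2 → L) (hz : ∀ i, z i ≠ 0) (hz0 : z none = ![t, 1]) (h : ∀ k : κ, val z (G (some k)) = 0) :
    ∃ y : Option κ → Fin 2 → K, (∀ i, y i ≠ 0) ∧ ∀ k, val y (G k) = 0 := by
  by_contra hno
  have hs : ∀ i : Option κ, ∃ ε, z i ε ≠ 0 ∧ (i = none → ε = 1) := by
    intro i
    cases i with
    | none => exact ⟨1, by rw [hz0]; simp, fun _ => rfl⟩
    | some j =>
      obtain ⟨ε, hε⟩ := Function.ne_iff.1 (hz (some j))
      exact ⟨ε, hε, fun h => by simp at h⟩
  choose s hs1 hs2 using hs
  have hsn : s none = 1 := hs2 none rfl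
  set z' : Option κ → Fin 2 → L := fun i ε => (z i (s i))⁻¹ * z i ε with hz'
  have hone : ∀ i, z' i (s i) = 1 := fun i => inv_mul_cancel₀ (hs1 i)
  have hne : ∀ i, z' i ≠ 0 := by
    intro i h0
    have h1 := hone i
    rw [h0] at h1
    exact zero_ne_one h1
  have ht' : z' none 0 = t := by
    simp only [hz', hsn, hz0]
    simp
  have hzero : ∀ k : κ, val z' (G (some k)) = 0 := by
    intro k
    have h1 := val_smul_all (hG (some k)) z (fun i => (z i (s i))⁻¹)
    rw [h k, mul_zero] at h1
    exact h1
  have key : ∀ A : ValuationSubring L, (∀ k : K, algebraMap K L k ∈ A) →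
      1 ≤ A.valuation (val z' (G none)) ∧ A.valuation t ≤ A.valuation (val z' (G none)) := by
    intro A hA
    have hcoord : ∀ (w : Fin 2 → L) (ε : Fin 2),
        A.valuation (w ε) ≤ max (A.valuation (w 0)) (A.valuation (w 1)) := by
      intro w ε
      fin_cases ε
      · exact le_max_left _ _
      · exact le_max_right _ _
    have hm1 : ∀ i, 1 ≤ max (A.valuation (z' i 0)) (A.valuation (z' i 1)) := by
      intro i
      have h1 := hcoord (z' i) (s i)
      rwa [hone i, map_one] at h1
    have hp1 : ∀ k i, 1 ≤ (max (A.valuation (z' i 0)) (A.valuation (z' i 1))) ^ e k i :=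
      fun k i => one_le_pow_of_one_le' (hm1 i) _
    have hP : ∏ i, (max (A.valuation (z' i 0)) (A.valuation (z' i 1))) ^ e none i ≤
        A.valuation (val z' (G none)) := by
      by_contra hlt
      rw [not_le] at hlt
      apply hno
      refine exists_zero_of_valuationSubring e G hG A hA z' hne (fun k => ?_)
      cases k with
      | none => exact hlt
      | some k =>
        rw [hzero k, map_zero]
        exact lt_of_lt_of_le zero_lt_one (Finset.one_le_prod' fun i _ => hp1 (some k) i)
    refine ⟨(Finset.one_le_prod' fun i _ => hp1 none i).trans hP, ?_⟩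
    calc A.valuation t = A.valuation (z' none 0) := by rw [ht']
      _ ≤ max (A.valuation (z' none 0)) (A.valuation (z' none 1)) := le_max_left _ _
      _ = (max (A.valuation (z' none 0)) (A.valuation (z' none 1))) ^ 1 := (pow_one _).symm
      _ ≤ (max (A.valuation (z' none 0)) (A.valuation (z' none 1))) ^ e none none :=
          pow_le_pow_right' (hm1 none) he
      _ ≤ ∏ i, (max (A.valuation (z' i 0)) (A.valuation (z' i 1))) ^ e none i :=
          Finset.single_le_prod' (f := fun i =>
            (max (A.valuation (z' i 0)) (A.valuation (z' i 1))) ^ e none i)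
            (fun i _ => hp1 none i) (Finset.mem_univ none)
      _ ≤ A.valuation (val z' (G none)) := hP
  obtain ⟨c, hc⟩ : (val z' (G none))⁻¹ ∈ Set.range (algebraMap K L) := by
    refine mem_range_of_forall_valuationSubring _ (fun A hA => ?_)
    rw [← ValuationSubring.valuation_le_one_iff, map_inv₀]
    exact inv_le_one_of_one_le₀ (key A hA).1
  apply ht
  refine mem_range_of_forall_valuationSubring _ (fun A hA => ?_)
  rw [← ValuationSubring.valuation_le_one_iff]
  refine (key A hA).2.trans ?_
  have h1 : val z' (G none) = algebraMap K L c⁻¹ := by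
    rw [map_inv₀, hc, inv_inv]
  rw [h1, ValuationSubring.valuation_le_one_iff]
  exact hA _

end Pool.Agent.MP_cfacaa_ag
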