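import Pool.Agent.Lib.MP_cfacaa_ag.ExC

/-! Row cf-ExD: existence of common zeros in a product of projective lines. -/

namespace Pool.Agent.MP_cfacaa_ag

open MvPolynomial

/-- the statement for the index set `κ` and all algebraically closed fields -/
private def ExD_P (κ : Type) : Prop :=
  ∀ (K : Type) [Field K] [IsAlgClosed K] (e : κ → κ → ℕ) (G : κ → MvPolynomial (κ × Fin 2) K),
    (∀ k, IsMH (e k) (G k)) → (∀ k, 1 ≤ e k k) →
    ∃ y : κ → Fin 2 → K, (∀ i, y i ≠ 0) ∧ ∀ k, val y (G k) = 0

private theorem ExD_val_X {E K R : Type} [CommRing K] [CommRing R] [Algebra K R] (x : E → Fin 2 → R)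
    (i : E) (ε : Fin 2) : val x (X (i, ε) : MvPolynomial (E × Fin 2) K) = x i ε := by
  unfold val
  rw [aeval_X]

private theorem ExD_equiv {α β : Type} [Fintype α] [Fintype β] (f : α ≃ β) (h : ExD_P α) : ExD_P β := by
  classical
  intro K _ _ e G hG he
  have hA : ∀ a, IsMH (fun a' => e (f a) (f a'))
      (val (fun i ε => (X (f.symm i, ε) : MvPolynomial (α × Fin 2) K)) (G (f a))) := by
    intro a
    have h1 := (hG (f a)).subst (fun i ε => (X (f.symm i, ε) : MvPolynomial (α × Fin 2) K))
      (fun i => Pi.single (f.symm i) 1) (fun i ε => isMH_X _ _)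
    have h2 : (fun k => ∑ i, e (f a) i * (Pi.single (f.symm i) 1 : α → ℕ) k) =
        fun a' => e (f a) (f a') := by
      funext k
      rw [Finset.sum_eq_single (f k)]
      · simp
      · intro b _ hb
        have h3 : k ≠ f.symm b := fun h4 => hb (by rw [h4, f.apply_symm_apply])
        rw [Pi.single_eq_of_ne h3, mul_zero]
      · intro h3
        exact absurd (Finset.mem_univ _) h3
    rw [h2] at h1
    exact h1
  obtain ⟨y, hy, hy0⟩ := h K (fun a a' => e (f a) (f a'))
    (fun a => val (fun i ε => (X (f.symm i, ε) : MvPolynomial (α × Fin 2) K)) (G (f a))) hA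
    (fun a => he (f a))
  refine ⟨fun i => y (f.symm i), fun i => hy _, fun k => ?_⟩
  have h1 := hy0 (f.symm k)
  rw [val_subst, f.apply_symm_apply] at h1
  simp only [ExD_val_X] at h1
  exact h1

private theorem ExD_trans {K : Type} [Field K] :
    algebraMap (RatFunc K) (AlgebraicClosure (RatFunc K)) RatFunc.X ∉
      Set.range (algebraMap K (AlgebraicClosure (RatFunc K))) := by
  rintro ⟨k, hk⟩
  rw [IsScalarTower.algebraMap_apply K (RatFunc K) (AlgebraicClosure (RatFunc K))] at hk
  have h1 := (algebraMap (RatFunc K) (AlgebraicClosure (RatFunc K))).injective hk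
  rw [RatFunc.algebraMap_eq_C, ← RatFunc.algebraMap_C, ← RatFunc.algebraMap_X] at h1
  have h2 := RatFunc.algebraMap_injective K h1
  have h3 := congrArg Polynomial.natDegree h2
  simp at h3

private theorem ExD_option {α : Type} [Fintype α] (ih : ExD_P α) : ExD_P (Option α) := by
  classical
  intro K _ _ e G hG he
  let t : AlgebraicClosure (RatFunc K) := algebraMap (RatFunc K) (AlgebraicClosure (RatFunc K)) RatFunc.X
  have ht : t ∉ Set.range (algebraMap K (AlgebraicClosure (RatFunc K))) := ExD_trans
  let φ : Option α → Fin 2 → MvPolynomial (α × Fin 2) (AlgebraicClosure (RatFunc K)) :=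
    fun o ε => match o with
      | none => (![C t, C 1] : Fin 2 → MvPolynomial (α × Fin 2) (AlgebraicClosure (RatFunc K))) ε
      | some b => X (b, ε)
  let D : Option α → α → ℕ := fun o => match o with
    | none => fun _ => 0
    | some b => Pi.single b 1
  have hφ : ∀ i ε, IsMH (D i) (φ i ε) := by
    intro i ε
    rcases i with _ | b
    · fin_cases ε
      · exact isMH_C t
      · exact isMH_C 1
    · exact isMH_X b ε
  have hA : ∀ a : α, IsMH (fun a' => e (some a) (some a')) (val φ (G (some a))) := by
    intro a
    have h1 := (hG (some a)).subst φ D hφ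
    have h2 : (fun k => ∑ i, e (some a) i * D i k) = fun a' => e (some a) (some a') := by
      funext k
      rw [Fintype.sum_option, Finset.sum_eq_single k]
      · simp [D]
      · intro b _ hb
        have h3 : D (some b) k = 0 := Pi.single_eq_of_ne hb.symm _
        rw [h3, mul_zero]
      · intro h3
        exact absurd (Finset.mem_univ _) h3
    rw [h2] at h1
    exact h1
  obtain ⟨y, hy, hy0⟩ := ih (AlgebraicClosure (RatFunc K)) (fun a a' => e (some a) (some a'))
    (fun a => val φ (G (some a))) hA (fun a => he (some a))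
  let z : Option α → Fin 2 → AlgebraicClosure (RatFunc K) := fun o => match o with
    | none => ![t, 1]
    | some b => y b
  refine exists_zero_step t ht e G hG (he none) z ?_ rfl ?_
  · intro i
    rcases i with _ | b
    · intro h1
      have h2 : (![t, 1] : Fin 2 → AlgebraicClosure (RatFunc K)) 1 = 0 := congrFun h1 1
      simp at h2
    · exact hy b
  · intro a
    let g : MvPolynomial (α × Fin 2) (AlgebraicClosure (RatFunc K)) →ₐ[K] AlgebraicClosure (RatFunc K) :=
      (aeval (fun p : α × Fin 2 => y p.1 p.2) :
        MvPolynomial (α × Fin 2) (AlgebraicClosure (RatFunc K)) →ₐ[AlgebraicClosure (RatFunc K)]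
          AlgebraicClosure (RatFunc K)).restrictScalars K
    have h1 : g (val φ (G (some a))) = 0 := hy0 a
    rw [map_val g φ (G (some a))] at h1
    have h2 : (fun i ε => g (φ i ε)) = z := by
      funext i ε
      rcases i with _ | b
      · fin_cases ε
        · exact aeval_C _ t
        · exact (aeval_C _ 1).trans (map_one _)
      · exact aeval_X _ _
    rw [h2] at h1
    exact h1

private theorem ExD_all (κ : Type) [Fintype κ] : ExD_P κ := by
  refine Fintype.induction_empty_option (P := fun α _ => ExD_P α) ?_ ?_ ?_ κ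
  · intro α β _ f h
    exact @ExD_equiv α β (Fintype.ofEquiv β f.symm) _ f h
  · intro K _ _ e G _ _
    exact ⟨fun i => i.elim, fun i => i.elim, fun i => i.elim⟩
  · intro α _ h
    exact ExD_option h

/-- Polynomials `G k`, `k : κ`, multihomogeneous of multidegrees `e k` with `1 ≤ e k k`, have a common zero in `(ℙ¹)^κ`. (Induction on
the number of elements of `κ`, for all algebraically closed fields: the polynomials `G (some k)` with the pair `none` replaced by
`(t, 1)` are multihomogeneous in the other pairs over `L = AlgebraicClosure (RatFunc K)`.) -/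
theorem exists_zero {κ : Type} [Fintype κ] {K : Type} [Field K] [IsAlgClosed K]
    (e : κ → κ → ℕ) (G : κ → MvPolynomial (κ × Fin 2) K) (hG : ∀ k, IsMH (e k) (G k)) (he : ∀ k, 1 ≤ e k k) :
    ∃ y : κ → Fin 2 → K, (∀ i, y i ≠ 0) ∧ ∀ k, val y (G k) = 0 :=
  ExD_all κ K e G hG he

end Pool.Agent.MP_cfacaa_ag
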