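import Mathlib

/-! Row cf-Quad: the second root of a quadratic form over a polynomial ring. -/

namespace Pool.Agent.MP_cfacaa_ag

open Polynomial

/-- Divide: `P ∣ C`, `Q ∣ A`. (If `P = 0` then `Q` is a unit, `C = 0`.) -/
theorem exists_second_root {P Q A B C : Polynomial ℂ} (hPQ : IsCoprime P Q)
    (h : A * P ^ 2 + B * (P * Q) + C * Q ^ 2 = 0) :
    ∃ P' Q' : Polynomial ℂ, P * P' = C ∧ Q * Q' = A ∧ P * Q' + P' * Q = -B := by
  have h1 : P ∣ C := by
    have h2 : P ∣ C * Q ^ 2 := ⟨-(A * P + B * Q), by linear_combination h⟩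
    exact (hPQ.pow_right).dvd_of_dvd_mul_right h2
  have h2 : Q ∣ A := by
    have h3 : Q ∣ A * P ^ 2 := ⟨-(B * P + C * Q), by linear_combination h⟩
    exact (hPQ.symm.pow_right).dvd_of_dvd_mul_right h3
  obtain ⟨P', hP'⟩ := h1
  obtain ⟨Q', hQ'⟩ := h2
  by_cases hP : P = 0
  · subst hP
    have hu : IsUnit Q := isCoprime_zero_left.1 hPQ
    obtain ⟨R, hR⟩ := hu.exists_right_inv
    refine ⟨-B * R, R * A, ?_, ?_, ?_⟩
    · rw [hP']; ring
    · linear_combination A * hR
    · linear_combination (-B) * hR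
  by_cases hQ : Q = 0
  · subst hQ
    have hu : IsUnit P := isCoprime_zero_right.1 hPQ
    obtain ⟨R, hR⟩ := hu.exists_right_inv
    refine ⟨R * C, -B * R, ?_, ?_, ?_⟩
    · linear_combination C * hR
    · rw [hQ']; ring
    · linear_combination (-B) * hR
  refine ⟨P', Q', hP'.symm, hQ'.symm, ?_⟩
  have h3 : P * Q * (P * Q' + P' * Q + B) = 0 := by
    rw [hP', hQ'] at h
    linear_combination h
  have h4 := (mul_eq_zero.1 h3).resolve_left (mul_ne_zero hP hQ)
  linear_combination h4

/-- a common root of `P'` and `Q'` is a common root of `A`, `B`, `C` -/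
theorem coprime_second_root {P Q P' Q' A B C : Polynomial ℂ} (h0 : ∀ t : ℂ, ¬ (A.eval t = 0 ∧ B.eval t = 0 ∧ C.eval t = 0))
    (h1 : P * P' = C) (h2 : Q * Q' = A) (h3 : P * Q' + P' * Q = -B) : IsCoprime P' Q' := by
  rw [isCoprime_iff_aeval_ne_zero_of_isAlgClosed ℂ ℂ]
  intro t
  by_contra hcon
  push Not at hcon
  obtain ⟨hP, hQ⟩ := hcon
  rw [coe_aeval_eq_eval] at hP hQ
  refine h0 t ⟨?_, ?_, ?_⟩
  · rw [← h2, eval_mul, hQ, mul_zero]
  · have h4 := congrArg (eval t) h3
    rw [eval_add, eval_mul, eval_mul, hP, hQ, mul_zero, zero_mul, add_zero, eval_neg] at h4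
    exact neg_eq_zero.1 h4.symm
  · rw [← h1, eval_mul, hP, mul_zero]

/-- one of the two coefficients in the maximal degree is not zero -/
private theorem Quad_lead {P Q : Polynomial ℂ} (h : IsCoprime P Q) :
    ¬ (P.coeff (max P.natDegree Q.natDegree) = 0 ∧ Q.coeff (max P.natDegree Q.natDegree) = 0) := by
  rintro ⟨h1, h2⟩
  have key : P = 0 ∧ Q = 0 := by
    rcases le_total P.natDegree Q.natDegree with h3 | h3
    · rw [max_eq_right h3] at h1 h2
      have h4 : Q = 0 := leadingCoeff_eq_zero.1 h2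
      rw [h4, natDegree_zero] at h1 h3
      refine ⟨?_, h4⟩
      rw [eq_C_of_natDegree_le_zero h3, h1, C_0]
    · rw [max_eq_left h3] at h1 h2
      have h4 : P = 0 := leadingCoeff_eq_zero.1 h1
      rw [h4, natDegree_zero] at h2 h3
      refine ⟨h4, ?_⟩
      rw [eq_C_of_natDegree_le_zero h3, h2, C_0]
  rw [key.1, key.2] at h
  exact not_isCoprime_zero_zero h

/-- The degrees: `max (deg P) (deg Q) + max (deg P') (deg Q')` is the maximum of the degrees of `A`, `B`, `C` (Gauss' lemma for the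
place at infinity: compare the coefficients). -/
theorem degree_second_root {P Q P' Q' A B C : Polynomial ℂ} (hPQ : IsCoprime P Q) (hPQ' : IsCoprime P' Q')
    (h1 : P * P' = C) (h2 : Q * Q' = A) (h3 : P * Q' + P' * Q = -B) {D : ℕ}
    (hA : A.natDegree ≤ D) (hB : B.natDegree ≤ D) (hC : C.natDegree ≤ D)
    (hD : ¬ (A.coeff D = 0 ∧ B.coeff D = 0 ∧ C.coeff D = 0)) :
    max P.natDegree Q.natDegree + max P'.natDegree Q'.natDegree = D := by
  have a1 := Quad_lead hPQ
  have a2 := Quad_lead hPQ'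
  have b1 : P.natDegree ≤ max P.natDegree Q.natDegree := le_max_left _ _
  have b2 : Q.natDegree ≤ max P.natDegree Q.natDegree := le_max_right _ _
  have b3 : P'.natDegree ≤ max P'.natDegree Q'.natDegree := le_max_left _ _
  have b4 : Q'.natDegree ≤ max P'.natDegree Q'.natDegree := le_max_right _ _
  set M := max P.natDegree Q.natDegree
  set M' := max P'.natDegree Q'.natDegree
  have c1 : C.coeff (M + M') = P.coeff M * P'.coeff M' := by
    rw [← h1]; exact coeff_mul_add_eq_of_natDegree_le b1 b3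
  have c2 : A.coeff (M + M') = Q.coeff M * Q'.coeff M' := by
    rw [← h2]; exact coeff_mul_add_eq_of_natDegree_le b2 b4
  have c3 : -B.coeff (M + M') = P.coeff M * Q'.coeff M' + P'.coeff M' * Q.coeff M := by
    rw [← coeff_neg, ← h3, coeff_add, coeff_mul_add_eq_of_natDegree_le b1 b4, add_comm M M',
      coeff_mul_add_eq_of_natDegree_le b3 b2]
  have d1 : C.natDegree ≤ M + M' := by
    rw [← h1]; exact natDegree_mul_le.trans (add_le_add b1 b3)
  have d2 : A.natDegree ≤ M + M' := by
    rw [← h2]; exact natDegree_mul_le.trans (add_le_add b2 b4)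
  have d3 : B.natDegree ≤ M + M' := by
    rw [← natDegree_neg, ← h3]
    refine (natDegree_add_le _ _).trans (max_le ?_ ?_)
    · exact natDegree_mul_le.trans (add_le_add b1 b4)
    · refine natDegree_mul_le.trans ?_
      rw [add_comm]
      exact add_le_add b2 b3
  refine le_antisymm ?_ ?_
  · by_contra hcon
    rw [not_le] at hcon
    rw [coeff_eq_zero_of_natDegree_lt (hC.trans_lt hcon)] at c1
    rw [coeff_eq_zero_of_natDegree_lt (hA.trans_lt hcon)] at c2
    rw [coeff_eq_zero_of_natDegree_lt (hB.trans_lt hcon), neg_zero] at c3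
    by_cases e1 : P.coeff M = 0
    · have e2 : Q.coeff M ≠ 0 := fun e2 => a1 ⟨e1, e2⟩
      have e3 : Q'.coeff M' = 0 := (mul_eq_zero.1 c2.symm).resolve_left e2
      have e4 : P'.coeff M' ≠ 0 := fun e4 => a2 ⟨e4, e3⟩
      rw [e1, zero_mul, zero_add] at c3
      exact mul_ne_zero e4 e2 c3.symm
    · have e4 : P'.coeff M' = 0 := (mul_eq_zero.1 c1.symm).resolve_left e1
      have e3 : Q'.coeff M' ≠ 0 := fun e3 => a2 ⟨e4, e3⟩
      rw [e4, zero_mul, add_zero] at c3
      exact mul_ne_zero e1 e3 c3.symm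
  · by_contra hcon
    rw [not_le] at hcon
    exact hD ⟨coeff_eq_zero_of_natDegree_lt (d2.trans_lt hcon),
      coeff_eq_zero_of_natDegree_lt (d3.trans_lt hcon),
      coeff_eq_zero_of_natDegree_lt (d1.trans_lt hcon)⟩

end Pool.Agent.MP_cfacaa_ag
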