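import Pool.Agent.Lib.MP_cfacaa_ag.Sec

/-! Row cf-Gen: globally generated classes. -/

namespace Pool.Agent.MP_cfacaa_ag

open MvPolynomial

section

variable {V E : Type} [Fintype V] [Fintype E] [DecidableEq E]

theorem globallyGenerated_of_refl {S : Sys V E} {u : V} {a : E} (ha : S.e u a = 2) (h0 : NoZero S u a) {d : E → ℤ}
    (hd : GloballyGenerated S (refl S u a d)) : GloballyGenerated S d := by
  obtain ⟨n, s, hs, hc⟩ := hd
  exact ⟨n, fun k x => s k (inv S u a x), fun k => isSection_comp_inv ha h0 (hs k),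
    fun x hx => hc _ (inv_mem_cone ha h0 hx)⟩

/-- Monomials. -/
theorem globallyGenerated_of_nonneg (S : Sys V E) {d : E → ℤ} (hd : ∀ i, 0 ≤ d i) : GloballyGenerated S d := by
  classical
  refine ⟨Fintype.card (E → Fin 2), fun k x =>
    ∏ i, x i ((Fintype.equivFin (E → Fin 2)).symm k i) ^ (d i).toNat, fun k => ?_, fun x hx => ?_⟩
  · set σ := (Fintype.equivFin (E → Fin 2)).symm k with hσ
    intro x _
    have hP : IsMH (fun j => (d j).toNat)
        (∏ i, (X (i, σ i) : MvPolynomial (E × Fin 2) ℂ) ^ (d i).toNat) := by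
      have h := IsMH.prod Finset.univ (e := fun i j => (d i).toNat * (Pi.single i 1 : E → ℕ) j)
        (P := fun i => (X (i, σ i) : MvPolynomial (E × Fin 2) ℂ) ^ (d i).toNat)
        (fun i _ => (isMH_X i (σ i)).pow _)
      have e : (fun j => ∑ i, (d i).toNat * (Pi.single i 1 : E → ℕ) j) = fun j => (d j).toNat := by
        funext j
        rw [Finset.sum_eq_single j]
        · simp
        · intro i _ hij
          rw [Pi.single_apply, if_neg (Ne.symm hij), mul_zero]
        · intro h
          exact absurd (Finset.mem_univ j) h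
      rw [e] at h
      exact h
    refine ⟨fun j => (d j).toNat, fun _ => 0, _, C 1, hP, isMH_C 1, fun i => ?_, ?_, fun y _ _ => ?_⟩
    · rw [Int.toNat_of_nonneg (hd i)]
      simp
    · simp [val]
    · simp [val, hσ]
  · have h1 : ∀ i, ∃ ε, x i ε ≠ 0 := fun i => by
      by_contra hcon
      exact hx.1 i (funext fun ε => by
        by_contra h2
        exact hcon ⟨ε, h2⟩)
    choose σ hσ using h1
    refine ⟨Fintype.equivFin (E → Fin 2) σ, ?_⟩
    simp only [Equiv.symm_apply_apply]
    exact Finset.prod_ne_zero_iff.2 fun i _ => pow_ne_zero _ (hσ i)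

end

end Pool.Agent.MP_cfacaa_ag
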