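import Pool.Agent.Lib.MP_cfacaa_ag.Defs

/-! Row cf-Hall: the matching. -/

namespace Pool.Agent.MP_cfacaa_ag

section

variable {V E : Type} [Fintype V] [Fintype E] [DecidableEq E] (S : Sys V E)

private theorem Hall_mem (W : Finset V) (j : E) : j ∈ S.factors W ↔ ∃ v ∈ W, S.e v j ≠ 0 := by
  unfold Sys.factors
  rw [Finset.mem_filter]
  exact ⟨fun h => h.2, fun h => ⟨Finset.mem_univ _, h⟩⟩

/-- Hall's theorem (`Finset.all_card_le_biUnion_card_iff_exists_injective`). For a set `T` of pairs `(w, l)` let `W` be the set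
of the `w`; then `|T| ≤ |W| + ∑ w ∈ W, e w i`, and the set of neighbours is `factors W` without `i`. -/
theorem exists_matching_of_card (i : E)
    (h : ∀ W : Finset V, W.Nonempty → W.card + ∑ w ∈ W, S.e w i ≤ ((S.factors W).erase i).card) :
    ∃ f : (Σ w : V, Fin (S.e w i + 1)) → E, Function.Injective f ∧ (∀ k, f k ≠ i) ∧ ∀ k, S.e k.1 (f k) ≠ 0 := by
  classical
  obtain ⟨f, hf, hf2⟩ := (Finset.all_card_le_biUnion_card_iff_exists_injective
    (fun k : (Σ w : V, Fin (S.e w i + 1)) =>
      (Finset.univ.filter fun j : E => j ≠ i ∧ S.e k.1 j ≠ 0))).1 (fun s => by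
    rcases s.eq_empty_or_nonempty with rfl | hs
    · simp
    · set W : Finset V := s.image Sigma.fst with hW
      have hWn : W.Nonempty := hs.image _
      have h1 : s.card ≤ W.card + ∑ w ∈ W, S.e w i := by
        have hsub : s ⊆ W.sigma fun w => (Finset.univ : Finset (Fin (S.e w i + 1))) := by
          intro k hk
          rw [Finset.mem_sigma]
          exact ⟨Finset.mem_image_of_mem _ hk, Finset.mem_univ _⟩
        refine (Finset.card_le_card hsub).trans ?_
        rw [Finset.card_sigma]
        simp only [Finset.card_univ, Fintype.card_fin]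
        rw [Finset.sum_add_distrib, Finset.sum_const, smul_eq_mul, mul_one, add_comm]
      refine h1.trans ((h W hWn).trans (Finset.card_le_card fun j hj => ?_))
      rw [Finset.mem_erase, Hall_mem] at hj
      obtain ⟨hj1, v, hv, hj2⟩ := hj
      obtain ⟨k, hk, rfl⟩ := Finset.mem_image.1 hv
      rw [Finset.mem_biUnion]
      exact ⟨k, hk, Finset.mem_filter.2 ⟨Finset.mem_univ _, hj1, hj2⟩⟩)
  exact ⟨f, hf, fun k => (Finset.mem_filter.1 (hf2 k)).2.1, fun k => (Finset.mem_filter.1 (hf2 k)).2.2⟩

/-- Let `m = |W|`. If no `w ∈ W` involves `i`: `|factors W| ≥ m`. If exactly one `w ∈ W` involves `i`, with `e w i = 1`: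
`|factors W| ≥ m + 2`. Otherwise `∑ w ∈ W, e w i = 2` (`cy`) and `|factors W| ≥ m + 3`: `more` if `m ≥ 2`, `hi` if `m = 1` (then `e w i = 2`). -/
theorem exists_matching (hS : S.Wide) (i : E) (hi : ∀ v, S.e v i = 2 → 4 ≤ (S.factors {v}).card) :
    ∃ f : (Σ w : V, Fin (S.e w i + 1)) → E, Function.Injective f ∧ (∀ k, f k ≠ i) ∧ ∀ k, S.e k.1 (f k) ≠ 0 := by
  refine exists_matching_of_card S i fun W hW => ?_
  have hsum : ∑ w ∈ W, S.e w i ≤ 2 := by
    rw [← S.cy i]
    exact Finset.sum_le_sum_of_subset (Finset.subset_univ W)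
  have he : (S.factors W).card - 1 ≤ ((S.factors W).erase i).card := Finset.pred_card_le_card_erase
  rcases Nat.lt_or_ge W.card 2 with h | h
  · have h1 : W.card = 1 := by
      have := hW.card_pos
      omega
    obtain ⟨w, rfl⟩ := Finset.card_eq_one.1 h1
    rw [Finset.sum_singleton] at hsum ⊢
    rw [h1]
    have h3 := hS.three w
    rcases Nat.eq_zero_or_pos (S.e w i) with h0 | h0
    · have hni : i ∉ S.factors {w} := by
        rw [Hall_mem]
        rintro ⟨v, hv, hv2⟩
        rw [Finset.mem_singleton] at hv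
        subst hv
        exact hv2 h0
      rw [Finset.erase_eq_of_notMem hni, h0]
      omega
    · rcases Nat.lt_or_ge (S.e w i) 2 with h2 | h2
      · omega
      · have h4 := hi w (by omega)
        omega
  · have := hS.more W h
    omega

end

end Pool.Agent.MP_cfacaa_ag
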