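import Pool.Agent.Lib.MP_cfacaa_ag.Defs

/-! Row cf-Hom: multihomogeneous polynomials, closure properties and substitution. -/

namespace Pool.Agent.MP_cfacaa_ag

open MvPolynomial

section

variable {E κ K : Type} [Fintype E] [CommRing K]

theorem isMH_zero (e : E → ℕ) : IsMH e (0 : MvPolynomial (E × Fin 2) K) := by
  intro m hm
  simp at hm

theorem isMH_C (k : K) : IsMH (fun _ : E => 0) (C k : MvPolynomial (E × Fin 2) K) := by
  classical
  intro m hm i
  rw [mem_support_iff, coeff_C] at hm
  by_cases h : 0 = m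
  · rw [← h]
    rfl
  · rw [if_neg h] at hm
    exact absurd rfl hm

theorem isMH_X [DecidableEq E] (i : E) (ε : Fin 2) : IsMH (Pi.single i 1) (X (i, ε) : MvPolynomial (E × Fin 2) K) := by
  classical
  intro m hm j
  rw [mem_support_iff, coeff_X'] at hm
  by_cases h : Finsupp.single (i, ε) 1 = m
  · rw [← h]
    by_cases hj : j = i
    · subst hj
      fin_cases ε <;> simp [Finsupp.single_apply]
    · have h1 : ∀ η, (i, ε) ≠ (j, η) := fun η h => hj (congrArg Prod.fst h).symm
      rw [Finsupp.single_apply, Finsupp.single_apply, if_neg (h1 0), if_neg (h1 1),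
        Pi.single_eq_of_ne hj, add_zero]
  · rw [if_neg h] at hm
    exact absurd rfl hm

theorem IsMH.add {e : E → ℕ} {P Q : MvPolynomial (E × Fin 2) K} (hP : IsMH e P) (hQ : IsMH e Q) : IsMH e (P + Q) := by
  classical
  intro m hm
  rcases Finset.mem_union.1 (support_add hm) with h | h
  · exact hP m h
  · exact hQ m h

theorem IsMH.neg {e : E → ℕ} {P : MvPolynomial (E × Fin 2) K} (hP : IsMH e P) : IsMH e (-P) := by
  intro m hm
  rw [support_neg] at hm
  exact hP m hm

theorem IsMH.sub {e : E → ℕ} {P Q : MvPolynomial (E × Fin 2) K} (hP : IsMH e P) (hQ : IsMH e Q) : IsMH e (P - Q) := by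
  rw [sub_eq_add_neg]
  exact hP.add hQ.neg

theorem IsMH.sum {ι : Type} (s : Finset ι) {e : E → ℕ} {P : ι → MvPolynomial (E × Fin 2) K} (h : ∀ k ∈ s, IsMH e (P k)) :
    IsMH e (∑ k ∈ s, P k) := by
  classical
  induction s using Finset.induction_on with
  | empty => simpa using isMH_zero e
  | insert a s ha ih =>
    rw [Finset.sum_insert ha]
    exact (h a (Finset.mem_insert_self a s)).add (ih fun k hk => h k (Finset.mem_insert_of_mem hk))

theorem IsMH.mul {e f : E → ℕ} {P Q : MvPolynomial (E × Fin 2) K} (hP : IsMH e P) (hQ : IsMH f Q) :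
    IsMH (fun i => e i + f i) (P * Q) := by
  classical
  intro m hm i
  obtain ⟨a, ha, b, hb, rfl⟩ := Finset.mem_add.1 (support_mul P Q hm)
  have h1 := hP a ha i
  have h2 := hQ b hb i
  simp only [Finsupp.add_apply]
  omega

theorem IsMH.pow {e : E → ℕ} {P : MvPolynomial (E × Fin 2) K} (hP : IsMH e P) (n : ℕ) :
    IsMH (fun i => n * e i) (P ^ n) := by
  induction n with
  | zero =>
    have h := isMH_C (E := E) (1 : K)
    rw [map_one] at h
    simpa using h
  | succ n ih =>
    rw [pow_succ]
    have h := ih.mul hP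
    have h2 : (fun i => n * e i + e i) = fun i => (n + 1) * e i := by
      funext i
      ring
    rwa [h2] at h

theorem IsMH.prod {ι : Type} (s : Finset ι) {e : ι → E → ℕ} {P : ι → MvPolynomial (E × Fin 2) K}
    (h : ∀ k ∈ s, IsMH (e k) (P k)) : IsMH (fun i => ∑ k ∈ s, e k i) (∏ k ∈ s, P k) := by
  classical
  induction s using Finset.induction_on with
  | empty =>
    have h := isMH_C (E := E) (1 : K)
    rw [map_one] at h
    simpa using h
  | insert a s ha ih =>
    rw [Finset.prod_insert ha]
    have h1 := (h a (Finset.mem_insert_self a s)).mul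
      (ih fun k hk => h k (Finset.mem_insert_of_mem hk))
    have h2 : (fun i => e a i + ∑ k ∈ s, e k i) = fun i => ∑ k ∈ insert a s, e k i := by
      funext i
      rw [Finset.sum_insert ha]
    rwa [h2] at h1

/-- the terms of `val x P` -/
theorem val_eq_sum {R : Type} [CommRing R] [Algebra K R] (x : E → Fin 2 → R) (P : MvPolynomial (E × Fin 2) K) :
    val x P = ∑ m ∈ P.support, algebraMap K R (P.coeff m) * ∏ i, (x i 0 ^ m (i, 0) * x i 1 ^ m (i, 1)) := by
  unfold val
  rw [aeval_def, eval₂_eq']
  apply Finset.sum_congr rfl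
  intro m _
  rw [Fintype.prod_prod_type]
  simp only [Fin.prod_univ_two]

/-- Substitution of multihomogeneous polynomials `φ i ε` of multidegree `D i`, with an extension of the ring of
coefficients. -/
theorem IsMH.subst [Fintype κ] {L : Type} [CommRing L] [Algebra K L] {e : E → ℕ} {P : MvPolynomial (E × Fin 2) K}
    (hP : IsMH e P) (φ : E → Fin 2 → MvPolynomial (κ × Fin 2) L) (D : E → κ → ℕ) (hφ : ∀ i ε, IsMH (D i) (φ i ε)) :
    IsMH (fun k => ∑ i, e i * D i k) (val φ P) := by
  rw [val_eq_sum]
  apply IsMH.sum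
  intro m hm
  have h1 : IsMH (fun k => ∑ i, e i * D i k) (∏ i, (φ i 0 ^ m (i, 0) * φ i 1 ^ m (i, 1))) := by
    apply IsMH.prod Finset.univ (e := fun i k => e i * D i k)
    intro i _
    have h2 := ((hφ i 0).pow (m (i, 0))).mul ((hφ i 1).pow (m (i, 1)))
    have h3 : (fun k => m (i, 0) * D i k + m (i, 1) * D i k) = fun k => e i * D i k := by
      funext k
      rw [← add_mul, hP m hm i]
    rwa [h3] at h2
  have h4 : algebraMap K (MvPolynomial (κ × Fin 2) L) (P.coeff m) = C (algebraMap K L (P.coeff m)) :=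
    rfl
  rw [h4]
  have h5 := (isMH_C (E := κ) (algebraMap K L (P.coeff m))).mul h1
  simpa using h5

end

end Pool.Agent.MP_cfacaa_ag
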