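import Pool.Agent.Lib.MP_cfacaa_ag.Curve
import Pool.Agent.Lib.MP_cfacaa_ag.Quad

/-! Row cf-Image: the image of a rational curve under the involution. -/

namespace Pool.Agent.MP_cfacaa_ag

open MvPolynomial

section

variable {V E : Type} [Fintype V] [Fintype E] [DecidableEq E]

private theorem Image_eval_update (c : E → Fin 2 → Polynomial ℂ) (a : E) (k₀ k₁ : ℂ) (t : ℂ) :
    (fun i ε => (Function.update c a ![Polynomial.C k₀, Polynomial.C k₁] i ε).eval t) =
      Function.update (fun i ε => (c i ε).eval t) a ![k₀, k₁] := by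
  funext i ε
  by_cases hi : i = a
  · subst hi
    rw [Function.update_self, Function.update_self]
    fin_cases ε
    · simp
    · simp
  · rw [Function.update_of_ne hi, Function.update_of_ne hi]

private theorem Image_coeff_update (c : E → Fin 2 → Polynomial ℂ) (a : E) (k₀ k₁ : ℂ) (δ : E → ℕ) :
    (fun i ε => (Function.update c a ![Polynomial.C k₀, Polynomial.C k₁] i ε).coeff
        (Function.update δ a 0 i)) =
      Function.update (fun i ε => (c i ε).coeff (δ i)) a ![k₀, k₁] := by
  funext i ε
  by_cases hi : i = a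
  · subst hi
    rw [Function.update_self, Function.update_self, Function.update_self]
    fin_cases ε
    · simp
    · simp
  · rw [Function.update_of_ne hi, Function.update_of_ne hi, Function.update_of_ne hi]

private theorem Image_sum {e : E → ℕ} {δ : E → ℕ} (a : E) :
    ∑ i, e i * Function.update δ a 0 i = ∑ j ∈ Finset.univ.erase a, e j * δ j := by
  rw [← Finset.add_sum_erase _ _ (Finset.mem_univ a), Function.update_self, mul_zero, zero_add]
  refine Finset.sum_congr rfl fun i hi => ?_
  rw [Function.update_of_ne (Finset.ne_of_mem_erase hi)]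

private theorem Image_deg_le {S : Sys V E} (C : RatCurve S) (a : E) (k₀ k₁ : ℂ) (i : E) (ε : Fin 2) :
    (Function.update C.c a ![Polynomial.C k₀, Polynomial.C k₁] i ε).natDegree ≤
      Function.update C.deg a 0 i := by
  by_cases hi : i = a
  · subst hi
    rw [Function.update_self, Function.update_self]
    fin_cases ε
    · simp
    · simp
  · rw [Function.update_of_ne hi, Function.update_of_ne hi]
    unfold RatCurve.deg
    fin_cases ε
    · exact le_max_left _ _
    · exact le_max_right _ _

/-- The image of a rational curve. With `A = val (update c a ![1, 0]) (F u)`, `C = val (update c a ![0, 1]) (F u)`,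
`B = val (update c a ![1, 1]) (F u) - A - C` (`val_quad`), `exists_second_root` for `c a = (P, Q)`; the new pair is `(P', Q')`; the
equation `F u` holds since `A * P' ^ 2 + B * (P' * Q') + C * Q' ^ 2 = 0`; the degree `D = ∑ j ≠ a, e u j * deg j`. -/
theorem exists_image {S : Sys V E} {u : V} {a : E} (ha : S.e u a = 2) (h0 : NoZero S u a) (C : RatCurve S) :
    ∃ C' : RatCurve S, (∀ j, j ≠ a → C'.deg j = C.deg j) ∧
      C.deg a + C'.deg a = ∑ j ∈ Finset.univ.erase a, S.e u j * C.deg j := by
  classical
  set D := ∑ j ∈ Finset.univ.erase a, S.e u j * C.deg j with hD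
  have c10 : (![1, 0] : Fin 2 → Polynomial ℂ) = ![Polynomial.C 1, Polynomial.C 0] := by simp
  have c01 : (![0, 1] : Fin 2 → Polynomial ℂ) = ![Polynomial.C 0, Polynomial.C 1] := by simp
  have c11 : (![1, 1] : Fin 2 → Polynomial ℂ) = ![Polynomial.C 1, Polynomial.C 1] := by simp
  set α := val (Function.update C.c a ![1, 0]) (S.F u) with hα
  set γ := val (Function.update C.c a ![0, 1]) (S.F u) with hγ
  set σ := val (Function.update C.c a ![1, 1]) (S.F u) with hσ
  set P := C.c a 0 with hP
  set Q := C.c a 1 with hQ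
  have hcop : IsCoprime P Q := C.cop a
  have hquad : ∀ X Y : Polynomial ℂ, val (Function.update C.c a ![X, Y]) (S.F u) =
      α * X ^ 2 + (σ - α - γ) * (X * Y) + γ * Y ^ 2 := fun X Y => val_quad (S.hF u) ha C.c X Y
  have hself : Function.update C.c a ![P, Q] = C.c := by
    have : (![P, Q] : Fin 2 → Polynomial ℂ) = C.c a := by
      funext ε
      fin_cases ε
      · rfl
      · rfl
    rw [this, Function.update_eq_self]
  have heq : α * P ^ 2 + (σ - α - γ) * (P * Q) + γ * Q ^ 2 = 0 := by
    rw [← hquad, hself, C.on u]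
  obtain ⟨P', Q', e1, e2, e3⟩ := exists_second_root hcop heq
  -- no common zeros
  have hz : ∀ t : ℂ, ¬ (α.eval t = 0 ∧ (σ - α - γ).eval t = 0 ∧ γ.eval t = 0) := by
    rintro t ⟨z1, z2, z3⟩
    rw [Polynomial.eval_sub, Polynomial.eval_sub, z1, z3, sub_zero, sub_zero] at z2
    refine h0 _ (eval_mem_cone C t) ⟨?_, ?_, ?_⟩
    · rw [hα, c10, eval_val, Image_eval_update] at z1
      exact z1
    · rw [hγ, c01, eval_val, Image_eval_update] at z3
      exact z3
    · rw [hσ, c11, eval_val, Image_eval_update] at z2
      exact z2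
  have hcop' : IsCoprime P' Q' := coprime_second_root hz e1 e2 e3
  -- degrees
  have dα : α.natDegree ≤ D := by
    rw [hα, c10, hD, ← Image_sum]
    exact natDegree_val_le (S.hF u) _ _ (Image_deg_le C a 1 0)
  have dγ : γ.natDegree ≤ D := by
    rw [hγ, c01, hD, ← Image_sum]
    exact natDegree_val_le (S.hF u) _ _ (Image_deg_le C a 0 1)
  have dσ : σ.natDegree ≤ D := by
    rw [hσ, c11, hD, ← Image_sum]
    exact natDegree_val_le (S.hF u) _ _ (Image_deg_le C a 1 1)
  have dβ : (σ - α - γ).natDegree ≤ D :=
    (Polynomial.natDegree_sub_le _ _).trans (max_le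
      ((Polynomial.natDegree_sub_le _ _).trans (max_le dσ dα)) dγ)
  have hcoef : ¬ (α.coeff D = 0 ∧ (σ - α - γ).coeff D = 0 ∧ γ.coeff D = 0) := by
    rintro ⟨z1, z2, z3⟩
    rw [Polynomial.coeff_sub, Polynomial.coeff_sub, z1, z3, sub_zero, sub_zero] at z2
    refine h0 _ (infinity_mem_cone C) ⟨?_, ?_, ?_⟩
    · rw [hα, c10, hD, ← Image_sum, coeff_val (S.hF u) _ _ (Image_deg_le C a 1 0),
        Image_coeff_update] at z1
      exact z1
    · rw [hγ, c01, hD, ← Image_sum, coeff_val (S.hF u) _ _ (Image_deg_le C a 0 1),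
        Image_coeff_update] at z3
      exact z3
    · rw [hσ, c11, hD, ← Image_sum, coeff_val (S.hF u) _ _ (Image_deg_le C a 1 1),
        Image_coeff_update] at z2
      exact z2
  have hdeg := degree_second_root hcop hcop' e1 e2 e3 dα dβ dγ hcoef
  refine ⟨⟨Function.update C.c a ![P', Q'], ?_, ?_⟩, ?_, ?_⟩
  · intro i
    by_cases hi : i = a
    · subst hi
      rw [Function.update_self]
      simpa using hcop'
    · rw [Function.update_of_ne hi]
      exact C.cop i
  · intro v
    by_cases hv : v = u
    · subst hv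
      rw [hquad, ← e1, ← e2]
      have : σ - α - γ = -(P * Q' + P' * Q) := by rw [e3, neg_neg]
      rw [← e1, ← e2] at this
      rw [this]
      ring
    · rw [val_indep (S.hF v) (e_eq_zero_of_ne ha hv)]
      exact C.on v
  · intro j hj
    show max (Function.update C.c a ![P', Q'] j 0).natDegree
      (Function.update C.c a ![P', Q'] j 1).natDegree = C.deg j
    rw [Function.update_of_ne hj]
    rfl
  · show C.deg a + max (Function.update C.c a ![P', Q'] a 0).natDegree
      (Function.update C.c a ![P', Q'] a 1).natDegree = D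
    rw [Function.update_self]
    exact hdeg

theorem nonnegOnCurves_refl {S : Sys V E} {u : V} {a : E} (ha : S.e u a = 2) (h0 : NoZero S u a) {d : E → ℤ}
    (hd : NonnegOnCurves S d) : NonnegOnCurves S (refl S u a d) := by
  classical
  intro C
  obtain ⟨C', h1, h2⟩ := exists_image ha h0 C
  have h3 := hd C'
  have h4 : (C.deg a : ℤ) + C'.deg a = ∑ j ∈ Finset.univ.erase a, (S.e u j : ℤ) * C.deg j := by
    exact_mod_cast h2
  have key : ∑ i, refl S u a d i * (C.deg i : ℤ) = ∑ i, d i * (C'.deg i : ℤ) := by
    rw [← Finset.add_sum_erase _ _ (Finset.mem_univ a),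
      ← Finset.add_sum_erase (Finset.univ) (fun i => d i * (C'.deg i : ℤ)) (Finset.mem_univ a)]
    have e1 : refl S u a d a = - d a := by simp [refl]
    have e2 : ∑ j ∈ Finset.univ.erase a, refl S u a d j * (C.deg j : ℤ) =
        ∑ j ∈ Finset.univ.erase a, d j * (C'.deg j : ℤ) +
          d a * ∑ j ∈ Finset.univ.erase a, (S.e u j : ℤ) * C.deg j := by
      rw [Finset.mul_sum, ← Finset.sum_add_distrib]
      refine Finset.sum_congr rfl fun j hj => ?_
      have hj' := Finset.ne_of_mem_erase hj
      rw [h1 j hj']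
      simp only [refl, if_neg hj']
      ring
    rw [e1, e2, ← h4]
    ring
  rw [key]
  exact h3

end

end Pool.Agent.MP_cfacaa_ag
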