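import Pool.Agent.Lib.MP_cfacaa_ag.Curve

/-! Row cf-Inv: the involution. -/

namespace Pool.Agent.MP_cfacaa_ag

open MvPolynomial

section

variable {V E : Type} [Fintype V] [Fintype E] [DecidableEq E]

open Classical in
/-- The involution. The pair `(X, Y) = x a` is replaced by `(X', Y')` with `X X' = C`, `Y Y' = A`, `X Y' + X' Y = -B`, where
`A X² + B X Y + C Y²` is the quadratic form `F u`. -/
noncomputable def inv (S : Sys V E) (u : V) (a : E) (x : E → Fin 2 → ℂ) : E → Fin 2 → ℂ :=
  let A := val (Function.update x a ![1, 0]) (S.F u)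
  let C := val (Function.update x a ![0, 1]) (S.F u)
  let B := val (Function.update x a ![1, 1]) (S.F u) - A - C
  if x a 0 ≠ 0 then Function.update x a ![C * x a 0 / x a 0 ^ 2, (- B * x a 0 - C * x a 1) / x a 0 ^ 2]
  else Function.update x a ![(- B * x a 1 - A * x a 0) / x a 1 ^ 2, A * x a 1 / x a 1 ^ 2]

private theorem Inv_upd (x : E → Fin 2 → ℂ) (a : E) : Function.update x a ![x a 0, x a 1] = x := by
  have : ![x a 0, x a 1] = x a := by
    funext ε
    fin_cases ε <;> rfl
  rw [this, Function.update_eq_self]

private theorem Inv_eq {S : Sys V E} {u : V} {a : E} (ha : S.e u a = 2) {x : E → Fin 2 → ℂ} (hx : x ∈ S.cone) :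
    val (Function.update x a ![1, 0]) (S.F u) * x a 0 ^ 2 +
        (val (Function.update x a ![1, 1]) (S.F u) - val (Function.update x a ![1, 0]) (S.F u) -
          val (Function.update x a ![0, 1]) (S.F u)) * (x a 0 * x a 1) +
        val (Function.update x a ![0, 1]) (S.F u) * x a 1 ^ 2 = 0 := by
  rw [← val_quad (S.hF u) ha x (x a 0) (x a 1), Inv_upd]
  exact hx.2 u

/-- the values of the involution where `X ≠ 0` -/
theorem inv_of_ne_zero (S : Sys V E) (u : V) (a : E) {x : E → Fin 2 → ℂ} (h : x a 0 ≠ 0) :
    inv S u a x = Function.update x a (fun ε => (x a 0 ^ 2)⁻¹ *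
      ![val (Function.update x a ![0, 1]) (S.F u) * x a 0,
        - (val (Function.update x a ![1, 1]) (S.F u) - val (Function.update x a ![1, 0]) (S.F u) -
          val (Function.update x a ![0, 1]) (S.F u)) * x a 0 - val (Function.update x a ![0, 1]) (S.F u) * x a 1] ε) := by
  unfold inv
  simp only [if_pos h]
  congr 1
  funext ε
  fin_cases ε
  · simp [div_eq_inv_mul]
  · simp [div_eq_inv_mul]

/-- the values of the involution where `Y ≠ 0`, on the cone (the two formulas agree because of the equation) -/
theorem inv_of_ne_zero' {S : Sys V E} {u : V} {a : E} (ha : S.e u a = 2) {x : E → Fin 2 → ℂ} (hx : x ∈ S.cone) (h : x a 1 ≠ 0) :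
    inv S u a x = Function.update x a (fun ε => (x a 1 ^ 2)⁻¹ *
      ![- (val (Function.update x a ![1, 1]) (S.F u) - val (Function.update x a ![1, 0]) (S.F u) -
          val (Function.update x a ![0, 1]) (S.F u)) * x a 1 - val (Function.update x a ![1, 0]) (S.F u) * x a 0,
        val (Function.update x a ![1, 0]) (S.F u) * x a 1] ε) := by
  have heq := Inv_eq ha hx
  unfold inv
  by_cases h0 : x a 0 = 0
  · simp only [h0, ne_eq, not_true_eq_false, if_false]
    congr 1
    funext ε
    fin_cases ε
    · simp [div_eq_inv_mul]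
    · simp [div_eq_inv_mul]
  · simp only [ne_eq, h0, not_false_eq_true, if_true]
    congr 1
    funext ε
    fin_cases ε
    · simp only [Fin.zero_eta, Matrix.cons_val_zero]
      field_simp
      linear_combination heq
    · simp only [Fin.mk_one, Matrix.cons_val_one, Matrix.cons_val_zero]
      field_simp
      linear_combination -heq

/-- The image of a point of the cone is in the cone. -/
theorem inv_mem_cone {S : Sys V E} {u : V} {a : E} (ha : S.e u a = 2) (h0 : NoZero S u a) {x : E → Fin 2 → ℂ}
    (hx : x ∈ S.cone) : inv S u a x ∈ S.cone := by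
  have heq := Inv_eq ha hx
  have hne := h0 x hx
  set A := val (Function.update x a ![1, 0]) (S.F u) with hA
  set C := val (Function.update x a ![0, 1]) (S.F u) with hC
  set D := val (Function.update x a ![1, 1]) (S.F u) with hD
  -- the general step
  have key : ∀ (lam P Q : ℂ), lam ≠ 0 → inv S u a x = Function.update x a (fun ε => lam * ![P, Q] ε) →
      ¬ (P = 0 ∧ Q = 0) → A * P ^ 2 + (D - A - C) * (P * Q) + C * Q ^ 2 = 0 → inv S u a x ∈ S.cone := by
    intro lam P Q hlam hinv hPQ hq
    rw [hinv]
    refine ⟨fun i => ?_, fun w => ?_⟩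
    · by_cases hi : i = a
      · subst hi
        rw [Function.update_self]
        intro hz
        apply hPQ
        have e0 := congrFun hz 0
        have e1 := congrFun hz 1
        simp only [Matrix.cons_val_zero, Matrix.cons_val_one, Pi.zero_apply, mul_eq_zero, hlam, false_or] at e0 e1
        exact ⟨e0, e1⟩
      · rw [Function.update_of_ne hi]
        exact hx.1 i
    · by_cases hw : w = u
      · subst hw
        rw [val_smul (S.hF w), val_quad (S.hF w) ha, ← hA, ← hC, ← hD, hq, mul_zero]
      · rw [val_indep (S.hF w) (e_eq_zero_of_ne ha hw)]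
        exact hx.2 w
  by_cases hX : x a 0 = 0
  · have hY : x a 1 ≠ 0 := by
      intro hY
      apply hx.1 a
      funext ε
      fin_cases ε
      · exact hX
      · exact hY
    refine key ((x a 1 ^ 2)⁻¹) _ _ (by positivity) (inv_of_ne_zero' ha hx hY) ?_ ?_
    · rintro ⟨e1, e2⟩
      have hA0 : A = 0 := by
        rcases mul_eq_zero.1 e2 with h | h
        · exact h
        · exact absurd h hY
      rw [← hA, ← hC, ← hD, hA0, zero_mul, sub_zero, neg_mul, neg_eq_zero] at e1
      have hB0 : D - 0 - C = 0 := by
        rcases mul_eq_zero.1 e1 with h | h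
        · exact h
        · exact absurd h hY
      rw [hA0, hX, hB0] at heq
      have hC0 : C = 0 := by
        simp only [zero_mul, zero_add] at heq
        rcases mul_eq_zero.1 heq with h | h
        · exact h
        · exact absurd (pow_eq_zero_iff (two_ne_zero) |>.1 h) hY
      rw [hC0, sub_zero, sub_zero] at hB0
      exact hne ⟨hA0, hC0, hB0⟩
    · rw [← hA, ← hC, ← hD]
      linear_combination A ^ 2 * heq
  · refine key ((x a 0 ^ 2)⁻¹) _ _ (by positivity) (inv_of_ne_zero S u a hX) ?_ ?_
    · rintro ⟨e1, e2⟩
      have hC0 : C = 0 := by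
        rcases mul_eq_zero.1 e1 with h | h
        · exact h
        · exact absurd h hX
      rw [← hA, ← hC, ← hD, hC0, zero_mul, sub_zero, sub_zero, neg_mul, neg_eq_zero] at e2
      have hB0 : D - A = 0 := by
        rcases mul_eq_zero.1 e2 with h | h
        · exact h
        · exact absurd h hX
      rw [hC0, sub_zero, hB0] at heq
      have hA0 : A = 0 := by
        simp only [zero_mul, add_zero] at heq
        rcases mul_eq_zero.1 heq with h | h
        · exact h
        · exact absurd (pow_eq_zero_iff (two_ne_zero) |>.1 h) hX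
      rw [hA0, sub_zero] at hB0
      exact hne ⟨hA0, hC0, hB0⟩
    · rw [← hA, ← hC, ← hD]
      linear_combination C ^ 2 * heq

end

end Pool.Agent.MP_cfacaa_ag
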