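import Pool.Agent.Lib.MP_cfacaa_ag.Curve

/-! Row cf-LineA: lines in the direction of a factor. -/

namespace Pool.Agent.MP_cfacaa_ag

open MvPolynomial

section

variable {V E : Type} [Fintype V] [Fintype E] [DecidableEq E] (S : Sys V E)

theorem LineA_cop {a b : ℂ} (h : ![a, b] ≠ 0) : IsCoprime (Polynomial.C a) (Polynomial.C b) := by
  by_cases ha : a = 0
  · have hb : b ≠ 0 := by
      rintro rfl
      apply h
      rw [ha]
      funext ε
      fin_cases ε <;> rfl
    exact ⟨0, Polynomial.C b⁻¹, by rw [zero_mul, zero_add, ← Polynomial.C_mul, inv_mul_cancel₀ hb,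
      Polynomial.C_1]⟩
  · exact ⟨Polynomial.C a⁻¹, 0, by rw [zero_mul, add_zero, ← Polynomial.C_mul, inv_mul_cancel₀ ha,
      Polynomial.C_1]⟩

/-- If the equations hold at the points of the line `x i = ![1, t]`, `t = 0, …, e w i`, they hold on the whole line (the
polynomial `val (x with the pair i equal to (1, T)) (F w)` has degree at most `e w i`, `natDegree_val_le` with `δ = Pi.single i 1`). -/
theorem exists_line (i : E) (x : E → Fin 2 → ℂ) (hx : ∀ j, j ≠ i → x j ≠ 0)
    (h : ∀ (w : V) (l : Fin (S.e w i + 1)), val (Function.update x i ![1, ((l : ℕ) : ℂ)]) (S.F w) = 0) :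
    ∃ C : RatCurve S, C.deg = Pi.single i 1 := by
  let c : E → Fin 2 → Polynomial ℂ :=
    Function.update (fun j ε => Polynomial.C (x j ε)) i ![1, Polynomial.X]
  have hci : c i = ![1, Polynomial.X] := Function.update_self _ _ _
  have hcj : ∀ j, j ≠ i → c j = fun ε => Polynomial.C (x j ε) := fun j hj =>
    Function.update_of_ne hj _ _
  have hdeg : ∀ j ε, (c j ε).natDegree ≤ (Pi.single i 1 : E → ℕ) j := by
    intro j ε
    by_cases hj : j = i
    · subst hj
      rw [hci, Pi.single_eq_same]
      fin_cases ε
      · simp
      · simp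
    · rw [hcj j hj]
      simp
  have heval : ∀ t : ℂ, (fun j ε => (c j ε).eval t) = Function.update x i ![1, t] := by
    intro t
    funext j ε
    by_cases hj : j = i
    · subst hj
      rw [hci, Function.update_self]
      fin_cases ε
      · simp
      · simp
    · rw [hcj j hj, Function.update_of_ne hj]
      simp
  have hon : ∀ w, val c (S.F w) = 0 := by
    intro w
    have h1 := natDegree_val_le (S.hF w) c (Pi.single i 1) hdeg
    have h2 : ∑ j, S.e w j * (Pi.single i 1 : E → ℕ) j = S.e w i := by
      rw [Finset.sum_eq_single i]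
      · rw [Pi.single_eq_same, mul_one]
      · intro j _ hj
        rw [Pi.single_eq_of_ne hj, mul_zero]
      · intro hi
        exact absurd (Finset.mem_univ i) hi
    rw [h2] at h1
    refine Polynomial.eq_zero_of_natDegree_lt_card_of_eval_eq_zero (val c (S.F w))
      (ι := Fin (S.e w i + 1)) (f := fun l => ((l : ℕ) : ℂ)) ?_ ?_ ?_
    · intro l l' hl
      exact Fin.ext (Nat.cast_injective hl)
    · intro l
      rw [eval_val, heval]
      exact h w l
    · rw [Fintype.card_fin]
      omega
  refine ⟨⟨c, ?_, hon⟩, ?_⟩
  · intro j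
    by_cases hj : j = i
    · subst hj
      rw [hci]
      exact isCoprime_one_left
    · rw [hcj j hj]
      apply LineA_cop
      intro h0
      apply hx j hj
      rw [← h0]
      funext ε
      fin_cases ε <;> rfl
  · funext j
    unfold RatCurve.deg
    simp only
    by_cases hj : j = i
    · subst hj
      rw [hci, Pi.single_eq_same]
      simp
    · rw [hcj j hj, Pi.single_eq_of_ne hj]
      simp

theorem nonneg_of_line {S : Sys V E} {d : E → ℤ} (hd : NonnegOnCurves S d) {i : E} (C : RatCurve S)
    (hC : C.deg = Pi.single i 1) : 0 ≤ d i := by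
  have h1 := hd C
  rw [hC, Finset.sum_eq_single i] at h1
  · simpa using h1
  · intro j _ hj
    rw [Pi.single_eq_of_ne hj]
    simp
  · intro hi
    exact absurd (Finset.mem_univ i) hi

/-- If the three coefficients of `F u` as a quadratic form in the pair `a` vanish at a point of `X`, the line through this
point in the direction `a` is in `X` (the other equations do not involve `a`, by `cy`). -/
theorem nonneg_of_zero {S : Sys V E} {d : E → ℤ} (hd : NonnegOnCurves S d) {u : V} {a : E} (ha : S.e u a = 2)
    {x : E → Fin 2 → ℂ} (hx : x ∈ S.cone) (h0 : val (Function.update x a ![1, 0]) (S.F u) = 0)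
    (h1 : val (Function.update x a ![0, 1]) (S.F u) = 0) (h2 : val (Function.update x a ![1, 1]) (S.F u) = 0) :
    0 ≤ d a := by
  obtain ⟨C, hC⟩ := exists_line S a x (fun j _ => hx.1 j) (by
    intro w l
    by_cases hw : w = u
    · subst hw
      rw [val_quad (S.hF w) ha, h0, h1, h2]
      ring
    · rw [val_indep (S.hF w) (e_eq_zero_of_ne ha hw)]
      exact hx.2 w)
  exact nonneg_of_line hd C hC

end

end Pool.Agent.MP_cfacaa_ag
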