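import Pool.Agent.Lib.MP_cfacaa_ag.ExD
import Pool.Agent.Lib.MP_cfacaa_ag.Hall
import Pool.Agent.Lib.MP_cfacaa_ag.LineA

/-! Row cf-LineB: existence of lines. -/

namespace Pool.Agent.MP_cfacaa_ag

open MvPolynomial

section

variable {V E : Type} [Fintype V] [Fintype E] [DecidableEq E] (S : Sys V E)

open Classical in
/-- the substitution -/
private noncomputable def LineB_phi {κ : Type} (i : E) (f : κ → E) (l : ℂ) (j : E) (ε : Fin 2) :
    MvPolynomial (κ × Fin 2) ℂ :=
  if j = i then C ((![1, l] : Fin 2 → ℂ) ε) else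
    if h : ∃ k, f k = j then X (h.choose, ε) else C ((![1, 0] : Fin 2 → ℂ) ε)

open Classical in
/-- the multidegrees of the substitution -/
private noncomputable def LineB_D {κ : Type} (f : κ → E) (j : E) (k : κ) : ℕ := if f k = j then 1 else 0

private theorem LineB_isMH {κ : Type} [Fintype κ] (i : E) (f : κ → E) (hf : Function.Injective f)
    (hfi : ∀ k, f k ≠ i) (l : ℂ) (j : E) (ε : Fin 2) :
    IsMH (LineB_D f j) (LineB_phi i f l j ε) := by
  classical
  unfold LineB_phi
  split_ifs with h1 h2
  · have e : LineB_D f j = fun _ => 0 := by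
      funext k
      unfold LineB_D
      rw [if_neg (h1 ▸ hfi k)]
    rw [e]
    exact isMH_C _
  · have e : LineB_D f j = Pi.single h2.choose 1 := by
      funext k
      unfold LineB_D
      rw [Pi.single_apply]
      have h3 := h2.choose_spec
      by_cases hk : k = h2.choose
      · rw [if_pos hk, if_pos (hk ▸ h3)]
      · rw [if_neg hk, if_neg fun hcon => hk (hf (hcon.trans h3.symm))]
    rw [e]
    exact isMH_X _ _
  · have e : LineB_D f j = fun _ => 0 := by
      funext k
      unfold LineB_D
      rw [if_neg fun hcon => h2 ⟨k, hcon⟩]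
    rw [e]
    exact isMH_C _

/-- A matching gives a line: apply `exists_zero` with `κ = (Σ w, Fin (e w i + 1))`, `G (w, l)` = `F w` with the pair `i` replaced by
`(1, l)`, the pair `f k` replaced by the variables of `k`, and all other pairs replaced by `(1, 0)`; its multidegree is
`k' ↦ e w (f k')` (`IsMH.subst`). -/
theorem exists_point_of_matching (i : E) (f : (Σ w : V, Fin (S.e w i + 1)) → E) (hf : Function.Injective f)
    (hfi : ∀ k, f k ≠ i) (hfe : ∀ k, S.e k.1 (f k) ≠ 0) :
    ∃ x : E → Fin 2 → ℂ, (∀ j, x j ≠ 0) ∧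
      ∀ (w : V) (l : Fin (S.e w i + 1)), val (Function.update x i ![1, ((l : ℕ) : ℂ)]) (S.F w) = 0 := by
  classical
  obtain ⟨y, hy, hz⟩ := exists_zero (κ := Σ w : V, Fin (S.e w i + 1)) (K := ℂ)
    (fun k k' => S.e k.1 (f k'))
    (fun k => val (LineB_phi i f (((k.2 : ℕ)) : ℂ)) (S.F k.1)) (fun k => by
      have h := (S.hF k.1).subst (LineB_phi i f (((k.2 : ℕ)) : ℂ)) (LineB_D f)
        (fun j ε => LineB_isMH i f hf hfi _ j ε)
      have e : (fun k' : (Σ w : V, Fin (S.e w i + 1)) => ∑ j, S.e k.1 j * LineB_D f j k') =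
          fun k' => S.e k.1 (f k') := by
        funext k'
        unfold LineB_D
        simp
      rw [e] at h
      exact h) (fun k => Nat.one_le_iff_ne_zero.2 (hfe k))
  have h10 : (![1, 0] : Fin 2 → ℂ) ≠ 0 := fun h => one_ne_zero (congrFun h 0)
  refine ⟨fun j => if h : ∃ k, f k = j then y h.choose else ![1, 0], fun j => ?_, fun w l => ?_⟩
  · simp only
    split_ifs with h
    · exact hy _
    · exact h10
  · have h := hz ⟨w, l⟩
    simp only at h
    rw [val_subst] at h
    refine Eq.trans ?_ h
    congr 1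
    funext j ε
    unfold LineB_phi
    by_cases h1 : j = i
    · subst h1
      rw [Function.update_self, if_pos rfl]
      simp [val]
    · rw [Function.update_of_ne h1, if_neg h1]
      by_cases h2 : ∃ k, f k = j
      · rw [dif_pos h2, dif_pos h2]
        simp [val]
      · rw [dif_neg h2, dif_neg h2]
        simp [val]

theorem nonneg_of_wide {S : Sys V E} (hS : S.Wide) {d : E → ℤ} (hd : NonnegOnCurves S d) (i : E)
    (hi : ∀ v, S.e v i = 2 → 4 ≤ (S.factors {v}).card) : 0 ≤ d i := by
  obtain ⟨f, h1, h2, h3⟩ := exists_matching S hS i hi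
  obtain ⟨x, h4, h5⟩ := exists_point_of_matching S i f h1 h2 h3
  obtain ⟨C, hC⟩ := exists_line S i x (fun j _ => h4 j) h5
  exact nonneg_of_line hd C hC

end

end Pool.Agent.MP_cfacaa_ag
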