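import Pool.Agent.Lib.MP_cfacaa_ag.LineB
import Pool.Agent.Lib.MP_cfacaa_ag.Image
import Pool.Agent.Lib.MP_cfacaa_ag.Gen

/-! Row cf-Main: the descent. -/

namespace Pool.Agent.MP_cfacaa_ag

section

variable {V E : Type} [Fintype V] [Fintype E] [DecidableEq E]

/-- A factor `i` is involved in one equation with degree `2` or in two equations with degree `1`. -/
theorem eq_two_or (S : Sys V E) (i : E) : (∃ v, S.e v i = 2) ∨ ∀ v, S.e v i ≤ 1 := by
  by_cases h : ∃ v, S.e v i = 2
  · exact Or.inl h
  · refine Or.inr fun v => ?_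
    have h1 : S.e v i ≤ ∑ w, S.e w i :=
      Finset.single_le_sum (f := fun w => S.e w i) (fun _ _ => Nat.zero_le _) (Finset.mem_univ v)
    rw [S.cy i] at h1
    have h2 : S.e v i ≠ 2 := fun h2 => h ⟨v, h2⟩
    omega

private theorem Main_one (S : Sys V E) {u : V} {j : E} (h : S.e u j = 1) (v : V) : S.e v j ≤ 1 := by
  classical
  rcases eq_or_ne v u with rfl | hv
  · exact h.le
  · have h1 := S.cy j
    rw [← Finset.add_sum_erase _ _ (Finset.mem_univ u), h] at h1
    have h2 : S.e v j ≤ ∑ w ∈ Finset.univ.erase u, S.e w j :=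
      Finset.single_le_sum (f := fun w => S.e w j) (fun _ _ => Nat.zero_le _)
        (Finset.mem_erase.2 ⟨hv, Finset.mem_univ v⟩)
    omega

private theorem Main_aux (S : Sys V E) (hS : S.Wide) (T : Finset E)
    (hT : ∀ i, i ∈ T ↔ ∀ v, S.e v i ≤ 1) :
    ∀ (n : ℕ) (d : E → ℤ), NonnegOnCurves S d → ∑ i ∈ T, d i < (n : ℤ) → GloballyGenerated S d := by
  intro n
  have hnn : ∀ d : E → ℤ, NonnegOnCurves S d → 0 ≤ ∑ i ∈ T, d i := fun d hd =>
    Finset.sum_nonneg fun i hi => nonneg_of_wide hS hd i fun v hv => by
      have := (hT i).1 hi v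
      omega
  induction n with
  | zero =>
    intro d hd h
    have := hnn d hd
    push_cast at h
    omega
  | succ n ih =>
    intro d hd h
    by_cases hall : ∀ i, 0 ≤ d i
    · exact globallyGenerated_of_nonneg S hall
    · rw [not_forall] at hall
      obtain ⟨a, ha⟩ := hall
      rw [not_le] at ha
      have h1 : ¬ ∀ v, S.e v a = 2 → 4 ≤ (S.factors {v}).card := fun hcon =>
        absurd (nonneg_of_wide hS hd a hcon) (not_le.2 ha)
      rw [not_forall] at h1
      obtain ⟨u, hu⟩ := h1
      rw [Classical.not_imp, not_le] at hu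
      obtain ⟨hua, hu4⟩ := hu
      have h3 : (S.factors {u}).card = 3 := by
        have := hS.three u
        omega
      have h0 : NoZero S u a := fun x hx hz =>
        absurd (nonneg_of_zero hd hua hx hz.1 hz.2.1 hz.2.2) (not_le.2 ha)
      obtain ⟨j, hj⟩ := hS.one u h3
      have hjT : j ∈ T := (hT j).2 (Main_one S hj)
      have haT : a ∉ T := fun hcon => by
        have := (hT a).1 hcon u
        omega
      refine globallyGenerated_of_refl hua h0 (ih _ (nonnegOnCurves_refl hua h0 hd) ?_)
      have e : ∑ i ∈ T, refl S u a d i = ∑ i ∈ T, d i + d a * ∑ i ∈ T, (S.e u i : ℤ) := by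
        rw [Finset.mul_sum, ← Finset.sum_add_distrib]
        refine Finset.sum_congr rfl fun i hi => ?_
        have hia : i ≠ a := fun h => haT (h ▸ hi)
        unfold refl
        rw [if_neg hia]
      have h4 : (1 : ℤ) ≤ ∑ i ∈ T, (S.e u i : ℤ) := by
        have := Finset.single_le_sum (f := fun i => (S.e u i : ℤ)) (fun _ _ => Int.natCast_nonneg _) hjT
        simp only [hj] at this
        exact_mod_cast this
      rw [e]
      push_cast at h
      nlinarith

/-- The descent: induction on `∑ d i` over the factors `i` with all `e v i ≤ 1` (these `d i` are nonnegative by `nonneg_of_wide`). If all `d i` are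
nonnegative use `globallyGenerated_of_nonneg`. Otherwise `d a < 0` for some `a`; by `nonneg_of_wide` there is `u` with `e u a = 2` and
three factors in `F u`; by `nonneg_of_zero`, `NoZero S u a`; there is `j` with `e u j = 1` (`one`), so `e v j ≤ 1` for all `v`; replace `d` by
`refl S u a d`: the sum gets smaller. -/
theorem main (S : Sys V E) (hS : S.Wide) (d : E → ℤ) (hd : NonnegOnCurves S d) : GloballyGenerated S d := by
  classical
  refine Main_aux S hS (Finset.univ.filter fun i => ∀ v, S.e v i ≤ 1) (fun i => by simp)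
    ((∑ i ∈ Finset.univ.filter fun i => ∀ v, S.e v i ≤ 1, d i).toNat + 1) d hd ?_
  push_cast
  exact lt_of_le_of_lt (Int.self_le_toNat _) (lt_add_one _)

end

end Pool.Agent.MP_cfacaa_ag
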