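import Pool.Agent.Lib.MP_cfacaa_ag.Curve

/-! Row cf-Res: the restriction of a section to a rational curve. -/

namespace Pool.Agent.MP_cfacaa_ag

open MvPolynomial

section

variable {V E : Type} [Fintype V] [Fintype E] [DecidableEq E]

/-- A polynomial which vanishes wherever the nonzero polynomial `q` does not vanish is zero. -/
private theorem Res_eq_zero {g q : Polynomial ℂ} (hq : q ≠ 0) (h : ∀ t : ℂ, q.eval t ≠ 0 → g.eval t = 0) : g = 0 := by
  have h1 : g * q = 0 := by
    apply Polynomial.funext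
    intro t
    rw [Polynomial.eval_mul, Polynomial.eval_zero]
    by_cases h0 : q.eval t = 0
    · rw [h0, mul_zero]
    · rw [h t h0, zero_mul]
  rcases mul_eq_zero.1 h1 with h2 | h2
  · exact h2
  · exact absurd h2 hq

/-- The restriction of a section to a rational curve is a polynomial function `f`: locally `f = P(C(t)) / Q(C(t))` with `Q(C(t)) ≠ 0`, any two
such fractions agree as rational functions (infinitely many values), and a fraction whose value is regular at every point is a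
polynomial. -/
theorem exists_poly_of_isSection {S : Sys V E} {d : E → ℤ} {s : (E → Fin 2 → ℂ) → ℂ} (hs : IsSection S d s) (C : RatCurve S) :
    ∃ f : Polynomial ℂ, ∀ t : ℂ, s (fun i ε => (C.c i ε).eval t) = f.eval t := by
  have hloc : ∀ t0 : ℂ, ∃ p q : Polynomial ℂ, q.eval t0 ≠ 0 ∧
      ∀ t : ℂ, q.eval t ≠ 0 → s (fun i ε => (C.c i ε).eval t) * q.eval t = p.eval t := by
    intro t0
    obtain ⟨_, _, P, Q, _, _, _, hQ, h⟩ := hs _ (eval_mem_cone C t0)
    refine ⟨val C.c P, val C.c Q, ?_, ?_⟩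
    · rw [eval_val]
      exact hQ
    · intro t ht
      rw [eval_val] at ht ⊢
      rw [eval_val]
      exact h _ (eval_mem_cone C t) ht
  obtain ⟨p0, q0, hq0, h0⟩ := hloc 0
  have hq0' : q0 ≠ 0 := by
    rintro rfl
    simp at hq0
  have hcross : ∀ (p1 q1 : Polynomial ℂ), q1 ≠ 0 →
      (∀ t : ℂ, q1.eval t ≠ 0 → s (fun i ε => (C.c i ε).eval t) * q1.eval t = p1.eval t) →
      q0 * p1 = q1 * p0 := by
    intro p1 q1 hq1 h1
    rw [← sub_eq_zero]
    refine Res_eq_zero (mul_ne_zero hq0' hq1) (fun t ht => ?_)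
    rw [Polynomial.eval_mul] at ht
    have ha := h0 t (left_ne_zero_of_mul ht)
    have hb := h1 t (right_ne_zero_of_mul ht)
    rw [Polynomial.eval_sub, Polynomial.eval_mul, Polynomial.eval_mul, ← ha, ← hb]
    ring
  obtain ⟨q', p', g, hrel, hgq, hgp⟩ := UniqueFactorizationMonoid.exists_reduced_factors q0 hq0' p0
  have hcop : IsCoprime q' p' := hrel.isCoprime
  have hg : g ≠ 0 := by
    rintro rfl
    rw [zero_mul] at hgq
    exact hq0' hgq.symm
  have hroot : ∀ t1 : ℂ, q'.eval t1 ≠ 0 := by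
    intro t1 hz
    obtain ⟨p1, q1, hq1, h1⟩ := hloc t1
    have hq1' : q1 ≠ 0 := by
      rintro rfl
      simp at hq1
    have h2 := hcross p1 q1 hq1' h1
    rw [← hgq, ← hgp] at h2
    have h3 : q' * p1 = q1 * p' := by
      apply mul_left_cancel₀ hg
      rw [← mul_assoc, h2]
      ring
    have h4 : q' ∣ q1 := hcop.dvd_of_dvd_mul_right ⟨p1, h3.symm⟩
    obtain ⟨r, hr⟩ := h4
    apply hq1
    rw [hr, Polynomial.eval_mul, hz, zero_mul]
  have hunit : IsUnit q' := by
    rw [Polynomial.isUnit_iff_degree_eq_zero]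
    by_contra hdeg
    obtain ⟨t1, ht1⟩ := IsAlgClosed.exists_root q' hdeg
    exact hroot t1 ht1
  obtain ⟨u, hu⟩ := hunit
  obtain ⟨f, hf⟩ : q0 ∣ p0 := by
    rw [← hgq, ← hgp, ← hu]
    exact mul_dvd_mul_left g (Units.coe_dvd)
  refine ⟨f, fun t1 => ?_⟩
  obtain ⟨p1, q1, hq1, h1⟩ := hloc t1
  have hq1' : q1 ≠ 0 := by
    rintro rfl
    simp at hq1
  have h2 := hcross p1 q1 hq1' h1
  have h3 : p1 = q1 * f := by
    apply mul_left_cancel₀ hq0'
    rw [h2, hf]
    ring
  have h4 := h1 t1 hq1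
  rw [h3, Polynomial.eval_mul, mul_comm] at h4
  exact mul_left_cancel₀ hq1 h4

end

end Pool.Agent.MP_cfacaa_ag
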