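import Pool.Agent.Lib.MP_cfacaa_ag.Inv

/-! Row cf-Sec: sections and the involution. -/

namespace Pool.Agent.MP_cfacaa_ag

open MvPolynomial

section

variable {V E : Type} [Fintype V] [Fintype E] [DecidableEq E]

theorem sec_sum (a : E) (p w : E → ℕ) (k : E) :
    ∑ i, p i * (if i = a then w else Pi.single i 1) k = p a * w k + if k = a then 0 else p k := by
  have h : ∀ i, p i * (if i = a then w else Pi.single i 1) k =
      (if i = a then p a * w k else 0) + (if i = k then (if k = a then 0 else p k) else 0) := by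
    intro i
    by_cases hi : i = a
    · subst hi
      by_cases hk : i = k
      · subst hk
        simp
      · simp [hk]
    · by_cases hk : i = k
      · subst hk
        simp [hi]
      · simp [hi, hk, Ne.symm hk]
  rw [Finset.sum_congr rfl fun i _ => h i, Finset.sum_add_distrib]
  simp

/-- the coefficients of `F u` as polynomials -/
noncomputable def secCoef (S : Sys V E) (u : V) (a : E) (z : Fin 2 → ℂ) : MvPolynomial (E × Fin 2) ℂ :=
  val (Function.update (fun i ε => (X (i, ε) : MvPolynomial (E × Fin 2) ℂ)) a (fun ε => C (z ε))) (S.F u)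

theorem secCoef_val (S : Sys V E) (u : V) (a : E) (z : Fin 2 → ℂ) (y : E → Fin 2 → ℂ) :
    val y (secCoef S u a z) = val (Function.update y a z) (S.F u) := by
  unfold secCoef
  rw [val_subst]
  congr 1
  funext i ε
  by_cases hi : i = a
  · subst hi
    simp [val]
  · simp [val, Function.update_of_ne hi]

theorem secCoef_mh (S : Sys V E) (u : V) (a : E) (z : Fin 2 → ℂ) :
    IsMH (fun k => if k = a then 0 else S.e u k) (secCoef S u a z) := by
  have h := IsMH.subst (S.hF u)
    (Function.update (fun i ε => (X (i, ε) : MvPolynomial (E × Fin 2) ℂ)) a (fun ε => C (z ε)))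
    (fun i => if i = a then (fun _ => 0) else Pi.single i 1) (fun i ε => by
      by_cases hi : i = a
      · subst hi
        simp only [Function.update_self]
        exact isMH_C _
      · simp only [if_neg hi, Function.update_of_ne hi]
        exact isMH_X i ε)
  have e : (fun k => ∑ i, S.e u i * (if i = a then (fun _ => 0) else Pi.single i 1 : E → ℕ) k) =
      fun k => if k = a then 0 else S.e u k := by
    funext k
    rw [sec_sum]
    simp
  rw [e] at h
  exact h

theorem sec_aux {S : Sys V E} {u : V} {a : E} (ha : S.e u a = 2) (h0 : NoZero S u a) {d : E → ℤ}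
    {s : (E → Fin 2 → ℂ) → ℂ} (hs : IsSection S (refl S u a d) s) (τ : Fin 2)
    (φa : Fin 2 → MvPolynomial (E × Fin 2) ℂ)
    (hφ : ∀ ε, IsMH (fun k => if k = a then 1 else S.e u k) (φa ε))
    (hinv : ∀ y ∈ S.cone, y a τ ≠ 0 →
      inv S u a y = Function.update y a (fun ε => (y a τ ^ 2)⁻¹ * val y (φa ε)))
    {x : E → Fin 2 → ℂ} (hx : x ∈ S.cone) (hxa : x a τ ≠ 0) :
    ∃ (p q : E → ℕ) (P Q : MvPolynomial (E × Fin 2) ℂ), IsMH p P ∧ IsMH q Q ∧
      (∀ i, (p i : ℤ) - q i = d i) ∧ val x Q ≠ 0 ∧
      ∀ y ∈ S.cone, val y Q ≠ 0 → s (inv S u a y) * val y Q = val y P := by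
  obtain ⟨p, q, P, Q, hP, hQ, hpq, hxQ, hsPQ⟩ := hs _ (inv_mem_cone ha h0 hx)
  -- the substitution
  obtain ⟨φ, hφd⟩ : ∃ φ : E → Fin 2 → MvPolynomial (E × Fin 2) ℂ,
    φ = Function.update (fun i ε => (X (i, ε) : MvPolynomial (E × Fin 2) ℂ)) a φa := ⟨_, rfl⟩
  have hφv : ∀ y : E → Fin 2 → ℂ, (fun i ε => val y (φ i ε)) =
      Function.update y a (fun ε => val y (φa ε)) := by
    intro y
    funext i ε
    by_cases hi : i = a
    · subst hi
      simp [hφd]
    · rw [hφd, Function.update_of_ne hi, Function.update_of_ne hi]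
      simp [val]
  have hmh : ∀ {p : E → ℕ} {P : MvPolynomial (E × Fin 2) ℂ}, IsMH p P →
      IsMH (fun k => p a * (if k = a then 1 else S.e u k) + if k = a then 0 else p k)
        (val φ P) := by
    intro p P hP
    have h := IsMH.subst hP φ (fun i => if i = a then (fun k => if k = a then 1 else S.e u k)
      else Pi.single i 1) (fun i ε => by
        by_cases hi : i = a
        · subst hi
          simp only [hφd, Function.update_self]
          exact hφ ε
        · simp only [if_neg hi, hφd, Function.update_of_ne hi]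
          exact isMH_X i ε)
    have e : (fun k => ∑ i, p i * (if i = a then (fun k => if k = a then 1 else S.e u k)
        else Pi.single i 1 : E → ℕ) k) =
        fun k => p a * (if k = a then 1 else S.e u k) + if k = a then 0 else p k := by
      funext k
      rw [sec_sum]
    rw [e] at h
    exact h
  have hval : ∀ {p : E → ℕ} {P : MvPolynomial (E × Fin 2) ℂ}, IsMH p P →
      ∀ y ∈ S.cone, y a τ ≠ 0 → val y (val φ P) = y a τ ^ (2 * p a) * val (inv S u a y) P := by
    intro p P hP y hy hya
    rw [val_subst, hφv, hinv y hy hya, val_smul hP, ← mul_assoc, pow_mul, ← mul_pow,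
      mul_inv_cancel₀ (pow_ne_zero 2 hya), one_pow, one_mul]
  have hvX : ∀ (y : E → Fin 2 → ℂ) (n : ℕ),
      val y ((X (a, τ) : MvPolynomial (E × Fin 2) ℂ) ^ n) = y a τ ^ n := by
    intro y n
    simp [val]
  have hvmul : ∀ (y : E → Fin 2 → ℂ) (P Q : MvPolynomial (E × Fin 2) ℂ),
      val y (P * Q) = val y P * val y Q := by
    intro y P Q
    simp [val]
  refine ⟨_, _, val φ P * X (a, τ) ^ (2 * q a + 2), val φ Q * X (a, τ) ^ (2 * p a + 2),
    (hmh hP).mul ((isMH_X a τ).pow _), (hmh hQ).mul ((isMH_X a τ).pow _), ?_, ?_, ?_⟩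
  · intro k
    have hk := hpq k
    have hka := hpq a
    unfold refl at hk hka
    by_cases hka' : k = a
    · subst hka'
      simp only [if_true, Pi.single_eq_same] at hk ⊢
      push_cast
      linarith
    · simp only [if_neg hka', if_true, Pi.single_eq_of_ne hka', mul_zero, add_zero] at hk hka ⊢
      push_cast
      linear_combination hk + (S.e u k : ℤ) * hka
  · rw [hvmul, hvX, hval hQ x hx hxa]
    exact mul_ne_zero (mul_ne_zero (pow_ne_zero _ hxa) hxQ) (pow_ne_zero _ hxa)
  · intro y hy hyQ
    rw [hvmul, hvX] at hyQ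
    have hya : y a τ ≠ 0 := by
      intro h
      apply hyQ
      rw [h, zero_pow (by omega), mul_zero]
    rw [hval hQ y hy hya] at hyQ
    have hyQ' : val (inv S u a y) Q ≠ 0 := by
      intro h
      apply hyQ
      rw [h]
      ring
    have hmain := hsPQ _ (inv_mem_cone ha h0 hy) hyQ'
    rw [hvmul, hvX, hval hQ y hy hya, hvmul, hvX, hval hP y hy hya, ← hmain]
    ring

/-- Pullback of a section. Near a point with `x a 0 ≠ 0` replace `P` by `(P with the pair a replaced by the polynomials in
inv_of_ne_zero) * X (a, 0) ^ (2 * q a)` and `Q` by `(Q with this replacement) * X (a, 0) ^ (2 * p a)` times `X (a, 0) ^ 2` in both (so that the new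
denominator is nonzero only where `x a 0 ≠ 0`, also when `p a = 0`); the multidegrees are given by `IsMH.subst`, the values by `val_subst` and
`val_smul`. Similarly with `x a 1 ≠ 0`. -/
theorem isSection_comp_inv {S : Sys V E} {u : V} {a : E} (ha : S.e u a = 2) (h0 : NoZero S u a) {d : E → ℤ}
    {s : (E → Fin 2 → ℂ) → ℂ} (hs : IsSection S (refl S u a d) s) : IsSection S d (fun x => s (inv S u a x)) := by
  have hvmul : ∀ (y : E → Fin 2 → ℂ) (P Q : MvPolynomial (E × Fin 2) ℂ),
      val y (P * Q) = val y P * val y Q := by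
    intro y P Q
    simp [val]
  have hvsub : ∀ (y : E → Fin 2 → ℂ) (P Q : MvPolynomial (E × Fin 2) ℂ),
      val y (P - Q) = val y P - val y Q := by
    intro y P Q
    simp [val]
  have hvneg : ∀ (y : E → Fin 2 → ℂ) (P : MvPolynomial (E × Fin 2) ℂ),
      val y (-P) = -val y P := by
    intro y P
    simp [val]
  have hvX : ∀ (y : E → Fin 2 → ℂ) (ε : Fin 2),
      val y (X (a, ε) : MvPolynomial (E × Fin 2) ℂ) = y a ε := by
    intro y ε
    simp [val]
  -- multidegrees
  have hmul : ∀ (P : MvPolynomial (E × Fin 2) ℂ) (ε : Fin 2),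
      IsMH (fun k => if k = a then 0 else S.e u k) P →
      IsMH (fun k => if k = a then 1 else S.e u k) (P * X (a, ε)) := by
    intro P ε hP
    have h := hP.mul (isMH_X a ε)
    have e : (fun i => (if i = a then 0 else S.e u i) + (Pi.single a 1 : E → ℕ) i) =
        fun k => if k = a then 1 else S.e u k := by
      funext k
      by_cases hk : k = a
      · subst hk
        simp
      · simp [hk]
    rw [e] at h
    exact h
  have hA := secCoef_mh S u a ![1, 0]
  have hC := secCoef_mh S u a ![0, 1]
  have hB := ((secCoef_mh S u a ![1, 1]).sub hA).sub hC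
  intro x hx
  by_cases hxa : x a 0 ≠ 0
  · refine sec_aux ha h0 hs 0 ![secCoef S u a ![0, 1] * X (a, 0),
      -((secCoef S u a ![1, 1] - secCoef S u a ![1, 0] - secCoef S u a ![0, 1]) * X (a, 0)) -
        secCoef S u a ![0, 1] * X (a, 1)] ?_ ?_ hx hxa
    · intro ε
      fin_cases ε
      · exact hmul _ _ hC
      · exact ((hmul _ _ hB).neg).sub (hmul _ _ hC)
    · intro y hy hya
      rw [inv_of_ne_zero S u a hya]
      congr 1
      funext ε
      fin_cases ε
      · simp only [Fin.zero_eta, Matrix.cons_val_zero, hvmul, hvX, secCoef_val]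
      · simp only [Fin.mk_one, Matrix.cons_val_one, Matrix.cons_val_zero, hvmul, hvX, hvsub, hvneg,
          secCoef_val]
        ring
  · have hxa1 : x a 1 ≠ 0 := by
      intro h
      apply hx.1 a
      funext ε
      fin_cases ε
      · exact not_not.1 hxa
      · exact h
    refine sec_aux ha h0 hs 1 ![-((secCoef S u a ![1, 1] - secCoef S u a ![1, 0] -
      secCoef S u a ![0, 1]) * X (a, 1)) - secCoef S u a ![1, 0] * X (a, 0),
        secCoef S u a ![1, 0] * X (a, 1)] ?_ ?_ hx hxa1
    · intro ε
      fin_cases ε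
      · exact ((hmul _ _ hB).neg).sub (hmul _ _ hA)
      · exact hmul _ _ hA
    · intro y hy hya
      rw [inv_of_ne_zero' ha hy hya]
      congr 1
      funext ε
      fin_cases ε
      · simp only [Fin.zero_eta, Matrix.cons_val_zero, hvmul, hvX, hvsub, hvneg, secCoef_val]
        ring
      · simp only [Fin.mk_one, Matrix.cons_val_one, Matrix.cons_val_zero, hvmul, hvX, secCoef_val]

end

end Pool.Agent.MP_cfacaa_ag
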