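import Pool.Agent.Lib.MP_cfacaa_ag.Hom

/-! Row cf-Val: values of multihomogeneous polynomials. -/

namespace Pool.Agent.MP_cfacaa_ag

open MvPolynomial

section

variable {E K R : Type} [Fintype E] [CommRing K] [CommRing R] [Algebra K R]

/-- values are compatible with ring homomorphisms -/
theorem map_val {R' : Type} [CommRing R'] [Algebra K R'] (f : R →ₐ[K] R') (x : E → Fin 2 → R)
    (P : MvPolynomial (E × Fin 2) K) : f (val x P) = val (fun i ε => f (x i ε)) P := by
  unfold val
  exact comp_aeval_apply (fun p : E × Fin 2 => x p.1 p.2) f P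

/-- values of a substitution -/
theorem val_subst {κ : Type} (y : κ → Fin 2 → R) (φ : E → Fin 2 → MvPolynomial (κ × Fin 2) K)
    (P : MvPolynomial (E × Fin 2) K) : val y (val φ P) = val (fun i ε => val y (φ i ε)) P := by
  have h := map_val (aeval (fun p : κ × Fin 2 => y p.1 p.2) : MvPolynomial (κ × Fin 2) K →ₐ[K] R) φ P
  exact h

theorem val_smul_all {e : E → ℕ} {P : MvPolynomial (E × Fin 2) K} (hP : IsMH e P) (x : E → Fin 2 → R) (lam : E → R) :
    val (fun i ε => lam i * x i ε) P = (∏ i, lam i ^ e i) * val x P := by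
  rw [val_eq_sum, val_eq_sum, Finset.mul_sum]
  refine Finset.sum_congr rfl fun m hm => ?_
  have h1 : ∏ i, ((lam i * x i 0) ^ m (i, 0) * (lam i * x i 1) ^ m (i, 1))
      = (∏ i, lam i ^ e i) * ∏ i, (x i 0 ^ m (i, 0) * x i 1 ^ m (i, 1)) := by
    rw [← Finset.prod_mul_distrib]
    refine Finset.prod_congr rfl fun i _ => ?_
    rw [← hP m hm i, mul_pow, mul_pow, pow_add]
    ring
  rw [h1]
  ring

theorem val_smul [DecidableEq E] {e : E → ℕ} {P : MvPolynomial (E × Fin 2) K} (hP : IsMH e P) (x : E → Fin 2 → R)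
    (a : E) (lam : R) (z : Fin 2 → R) :
    val (Function.update x a (fun ε => lam * z ε)) P = lam ^ e a * val (Function.update x a z) P := by
  have h1 := val_smul_all hP (Function.update x a z) (fun i => if i = a then lam else 1)
  have h2 : (fun i ε => (if i = a then lam else 1) * Function.update x a z i ε)
      = Function.update x a (fun ε => lam * z ε) := by
    funext i ε
    by_cases hi : i = a
    · subst hi
      simp
    · simp [hi]
  rw [h2] at h1
  rw [h1]
  congr 1
  rw [Finset.prod_eq_single a]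
  · rw [if_pos rfl]
  · intro i _ hi
    rw [if_neg hi, one_pow]
  · intro h
    exact absurd (Finset.mem_univ a) h

private theorem Val_split [DecidableEq E] (P : MvPolynomial (E × Fin 2) K) (a : E)
    (x : E → Fin 2 → R) (z : Fin 2 → R) : val (Function.update x a z) P =
      ∑ m ∈ P.support, algebraMap K R (P.coeff m) * ((z 0 ^ m (a, 0) * z 1 ^ m (a, 1)) *
        ∏ i ∈ Finset.univ.erase a, (x i 0 ^ m (i, 0) * x i 1 ^ m (i, 1))) := by
  rw [val_eq_sum]
  refine Finset.sum_congr rfl fun m _ => ?_
  rw [← Finset.mul_prod_erase Finset.univ _ (Finset.mem_univ a), Function.update_self]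
  congr 2
  refine Finset.prod_congr rfl fun i hi => ?_
  rw [Function.update_of_ne (Finset.ne_of_mem_erase hi)]

/-- a polynomial of degree `0` in the pair `a` -/
theorem val_indep [DecidableEq E] {e : E → ℕ} {P : MvPolynomial (E × Fin 2) K} (hP : IsMH e P) {a : E} (h : e a = 0)
    (x : E → Fin 2 → R) (z : Fin 2 → R) : val (Function.update x a z) P = val x P := by
  have h0 : val x P = val (Function.update x a (x a)) P := by rw [Function.update_eq_self]
  rw [h0, Val_split, Val_split]
  refine Finset.sum_congr rfl fun m hm => ?_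
  have h1 := hP m hm a
  have h2 : m (a, 0) = 0 := by omega
  have h3 : m (a, 1) = 0 := by omega
  rw [h2, h3]
  simp

/-- a polynomial of degree `2` in the pair `a` is a binary quadratic form in this pair -/
theorem val_quad [DecidableEq E] {e : E → ℕ} {P : MvPolynomial (E × Fin 2) K} (hP : IsMH e P) {a : E} (h : e a = 2)
    (x : E → Fin 2 → R) (X Y : R) :
    val (Function.update x a ![X, Y]) P =
      val (Function.update x a ![1, 0]) P * X ^ 2 +
        (val (Function.update x a ![1, 1]) P - val (Function.update x a ![1, 0]) P -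
          val (Function.update x a ![0, 1]) P) * (X * Y) +
        val (Function.update x a ![0, 1]) P * Y ^ 2 := by
  rw [Val_split, Val_split, Val_split, Val_split, ← Finset.sum_sub_distrib, ← Finset.sum_sub_distrib,
    Finset.sum_mul, Finset.sum_mul, Finset.sum_mul, ← Finset.sum_add_distrib, ← Finset.sum_add_distrib]
  refine Finset.sum_congr rfl fun m hm => ?_
  have h1 := hP m hm a
  rw [h] at h1
  simp only [Matrix.cons_val_zero, Matrix.cons_val_one]
  obtain ⟨h2, h3⟩ | ⟨h2, h3⟩ | ⟨h2, h3⟩ : (m (a, 0) = 2 ∧ m (a, 1) = 0) ∨ (m (a, 0) = 1 ∧ m (a, 1) = 1) ∨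
      (m (a, 0) = 0 ∧ m (a, 1) = 2) := by omega
  · rw [h2, h3]
    ring
  · rw [h2, h3]
    ring
  · rw [h2, h3]
    ring

end

section

variable {E : Type} [Fintype E]

theorem eval_val (t : ℂ) (c : E → Fin 2 → Polynomial ℂ) (P : MvPolynomial (E × Fin 2) ℂ) :
    (val c P).eval t = val (fun i ε => (c i ε).eval t) P := by
  have h := map_val (Polynomial.aeval t : Polynomial ℂ →ₐ[ℂ] ℂ) c P
  simpa [Polynomial.coe_aeval_eq_eval] using h

theorem natDegree_val_le {e : E → ℕ} {P : MvPolynomial (E × Fin 2) ℂ} (hP : IsMH e P) (c : E → Fin 2 → Polynomial ℂ)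
    (δ : E → ℕ) (hc : ∀ i ε, (c i ε).natDegree ≤ δ i) : (val c P).natDegree ≤ ∑ i, e i * δ i := by
  rw [val_eq_sum]
  refine Polynomial.natDegree_sum_le_of_forall_le _ _ fun m hm => ?_
  refine Polynomial.natDegree_mul_le.trans ?_
  rw [← Polynomial.C_eq_algebraMap, Polynomial.natDegree_C, zero_add]
  refine (Polynomial.natDegree_prod_le _ _).trans ?_
  refine Finset.sum_le_sum fun i _ => ?_
  refine Polynomial.natDegree_mul_le.trans ?_
  rw [← hP m hm i, add_mul]
  exact add_le_add (Polynomial.natDegree_pow_le.trans (Nat.mul_le_mul_left _ (hc i 0)))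
    (Polynomial.natDegree_pow_le.trans (Nat.mul_le_mul_left _ (hc i 1)))

private theorem Val_coeff_prod (s : Finset E) (f : E → Polynomial ℂ) (n : E → ℕ) (hf : ∀ i, (f i).natDegree ≤ n i) :
    (∏ i ∈ s, f i).coeff (∑ i ∈ s, n i) = ∏ i ∈ s, (f i).coeff (n i) := by
  classical
  induction s using Finset.induction_on with
  | empty => simp
  | insert a s ha ih =>
    rw [Finset.prod_insert ha, Finset.sum_insert ha, Finset.prod_insert ha, ← ih]
    refine Polynomial.coeff_mul_add_eq_of_natDegree_le (hf a) ?_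
    exact (Polynomial.natDegree_prod_le _ _).trans (Finset.sum_le_sum fun i _ => hf i)

/-- the leading coefficient is the value at the point at infinity -/
theorem coeff_val {e : E → ℕ} {P : MvPolynomial (E × Fin 2) ℂ} (hP : IsMH e P) (c : E → Fin 2 → Polynomial ℂ)
    (δ : E → ℕ) (hc : ∀ i ε, (c i ε).natDegree ≤ δ i) :
    (val c P).coeff (∑ i, e i * δ i) = val (fun i ε => (c i ε).coeff (δ i)) P := by
  rw [val_eq_sum, val_eq_sum, Polynomial.finsetSum_coeff]
  refine Finset.sum_congr rfl fun m hm => ?_
  rw [← Polynomial.C_eq_algebraMap, Polynomial.coeff_C_mul, Val_coeff_prod Finset.univ _ (fun i => e i * δ i)]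
  · congr 1
    refine Finset.prod_congr rfl fun i _ => ?_
    rw [← hP m hm i, add_mul, Polynomial.coeff_mul_add_eq_of_natDegree_le
      (Polynomial.natDegree_pow_le.trans (Nat.mul_le_mul_left _ (hc i 0)))
      (Polynomial.natDegree_pow_le.trans (Nat.mul_le_mul_left _ (hc i 1))),
      Polynomial.coeff_pow_of_natDegree_le (hc i 0), Polynomial.coeff_pow_of_natDegree_le (hc i 1)]
  · intro i
    refine Polynomial.natDegree_mul_le.trans ?_
    rw [← hP m hm i, add_mul]
    exact add_le_add (Polynomial.natDegree_pow_le.trans (Nat.mul_le_mul_left _ (hc i 0)))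
      (Polynomial.natDegree_pow_le.trans (Nat.mul_le_mul_left _ (hc i 1)))

end

end Pool.Agent.MP_cfacaa_ag
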